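import Mathlib

set_option autoImplicit false

namespace Pool.Agent.Lib.MP_e56372_nt

/-- badly approximable numbers. -/
def Bad (x : ℝ) : Prop :=
  ∃ c : ℝ, 0 < c ∧ ∀ q : ℕ, 0 < q → c ≤ q * |(q : ℝ) * x - (round ((q : ℝ) * x) : ℝ)|

end Pool.Agent.Lib.MP_e56372_nt
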