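import Pool.Agent.Lib.MP_e56372_nt.Fd.Defs

set_option autoImplicit false
open Finset Filter Topology
open scoped NNReal ENNReal

namespace Pool.Agent.Lib.MP_e56372_nt.Fd
open Pool.Agent.Lib.MP_e56372_nt

/-- the interval of level `n` at `x` is far from all rationals of small height -/
def badT_G (B : ℕ) (n : ℕ) (x : ℝ) : Prop :=
  ∀ b e : ℤ, b ≠ 0 → 4 * (b : ℝ) ^ 2 * B < (B : ℝ) ^ n → ∀ y : ℝ, x ≤ y → y ≤ x + 1 / (B : ℝ) ^ n →
    |(b : ℝ)| * (1 / (B : ℝ) ^ n) ≤ |b * y + e|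

theorem badT_sep {b e b' e' : ℤ} {y y' h P : ℝ} (hb : b ≠ 0) (hb' : b' ≠ 0) (hh : 0 < h)
    (hP : 2 ≤ P) (h1 : 4 * (b : ℝ) ^ 2 * P * h < 1) (h2 : 4 * (b' : ℝ) ^ 2 * P * h < 1)
    (h3 : |b * y + e| < |(b : ℝ)| * h) (h4 : |b' * y' + e'| < |(b' : ℝ)| * h)
    (h5 : |y' - y| ≤ P * h) : |y' - y| < 2 * h := by
  have p1 : 0 < |(b : ℝ)| := abs_pos.2 (by exact_mod_cast hb)
  have p2 : 0 < |(b' : ℝ)| := abs_pos.2 (by exact_mod_cast hb')
  have p3 := mul_pos p1 p2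
  have k1 : |((b * e' - b' * e : ℤ) : ℝ) + b * b' * (y' - y)| < |(b : ℝ)| * |(b' : ℝ)| * (2 * h) := by
    have e1 : ((b * e' - b' * e : ℤ) : ℝ) + b * b' * (y' - y) =
        b * (b' * y' + e') - b' * (b * y + e) := by push_cast; ring
    rw [e1]
    refine (abs_sub _ _).trans_lt ?_
    rw [abs_mul, abs_mul]
    have a1 := mul_lt_mul_of_pos_left h4 p1
    have a2 := mul_lt_mul_of_pos_left h3 p2
    linarith
  have k2 : |(b : ℝ) * b' * (y' - y)| = |(b : ℝ)| * |(b' : ℝ)| * |y' - y| := by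
    rw [abs_mul, abs_mul]
  have k3 : 4 * (|(b : ℝ)| * |(b' : ℝ)|) * (P * h) < 1 := by
    rw [← sq_abs] at h1 h2
    have hp : 0 < P * h := by positivity
    nlinarith [mul_nonneg hp.le (sq_nonneg (|(b : ℝ)| - |(b' : ℝ)|))]
  have k4 : |((b * e' - b' * e : ℤ) : ℝ)| < 1 := by
    have a1 := abs_sub (((b * e' - b' * e : ℤ) : ℝ) + b * b' * (y' - y)) (b * b' * (y' - y))
    rw [add_sub_cancel_right, k2] at a1
    have a2 := mul_le_mul_of_nonneg_left h5 p3.le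
    have a3 : |(b : ℝ)| * |(b' : ℝ)| * (2 * h) ≤ |(b : ℝ)| * |(b' : ℝ)| * (P * h) :=
      mul_le_mul_of_nonneg_left (mul_le_mul_of_nonneg_right hP hh.le) p3.le
    have a4 : 0 < |(b : ℝ)| * |(b' : ℝ)| * (P * h) := by positivity
    linarith
  have k5 : b * e' - b' * e = 0 := Int.abs_lt_one_iff.1 (by exact_mod_cast k4)
  rw [k5, Int.cast_zero, zero_add, k2] at k1
  exact lt_of_mul_lt_mul_left k1 p3.le

theorem badT_near {B n a a' : ℕ} {x : ℝ} (hB : 16 ≤ B) (ha : a < B / 2) (ha' : a' < B / 2)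
    (h : ¬ badT_G B (n + 1) (x + 2 * a / (B : ℝ) ^ (n + 1)))
    (h' : ¬ badT_G B (n + 1) (x + 2 * a' / (B : ℝ) ^ (n + 1))) : a' ≤ a + 1 := by
  unfold badT_G at h h'
  push Not at h h'
  obtain ⟨b, e, hb, h1, y, y1, y2, h3⟩ := h
  obtain ⟨b', e', hb', h2, y', y3, y4, h4⟩ := h'
  have hB' : (16 : ℝ) ≤ B := by exact_mod_cast hB
  have hp : (0 : ℝ) < (B : ℝ) ^ (n + 1) := by positivity
  rw [div_eq_mul_one_div] at y1 y2 y3 y4
  obtain ⟨h, hh⟩ : ∃ h : ℝ, h = 1 / (B : ℝ) ^ (n + 1) := ⟨_, rfl⟩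
  have h0 : 0 < h := by rw [hh]; positivity
  have g1 : 4 * (b : ℝ) ^ 2 * B * h < 1 := by rw [hh, mul_one_div, div_lt_one hp]; exact h1
  have g2 : 4 * (b' : ℝ) ^ 2 * B * h < 1 := by rw [hh, mul_one_div, div_lt_one hp]; exact h2
  rw [← hh] at y1 y2 y3 y4 h3 h4
  have a1 : (2 * a + 1 : ℝ) ≤ B := by exact_mod_cast (show 2 * a + 1 ≤ B by omega)
  have a2 : (2 * a' + 1 : ℝ) ≤ B := by exact_mod_cast (show 2 * a' + 1 ≤ B by omega)
  have a3 : (0 : ℝ) ≤ a := Nat.cast_nonneg _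
  have a4 : (0 : ℝ) ≤ a' := Nat.cast_nonneg _
  have a5 := mul_le_mul_of_nonneg_right a1 h0.le
  have a6 := mul_le_mul_of_nonneg_right a2 h0.le
  have a7 := mul_nonneg a3 h0.le
  have a8 := mul_nonneg a4 h0.le
  have k := badT_sep hb hb' h0 (by linarith) g1 g2 h3 h4 (abs_le.2 ⟨by linarith, by linarith⟩)
  have k2 := (abs_lt.1 k).2
  by_contra hn
  have a9 : (a + 2 : ℝ) ≤ a' := by exact_mod_cast (show a + 2 ≤ a' by omega)
  have := mul_le_mul_of_nonneg_right a9 h0.le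
  linarith

theorem bad_tree (B : ℕ) (hB : 16 ≤ B) :
    ∃ G, Branch B (B / 4) G ∧ ∀ ζ ∈ Lim B G, BadK (4 * (B : ℝ) ^ 2) ζ := by
  classical
  have hB' : (16 : ℝ) ≤ B := by exact_mod_cast hB
  have hsq : ∀ b : ℤ, b ≠ 0 → (1 : ℝ) ≤ (b : ℝ) ^ 2 := fun b hb => by
    have : (1 : ℤ) ≤ b ^ 2 := Int.add_one_le_iff.2 (sq_pos_of_ne_zero hb)
    exact_mod_cast this
  refine ⟨badT_G B, ⟨fun b e hb h => ?_, fun n x _ => ?_⟩, fun ζ hζ b e hb => ?_⟩
  · have := hsq b hb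
    rw [pow_zero] at h
    nlinarith
  · refine ⟨(range (B / 2)).filter fun a => badT_G B (n + 1) (x + 2 * a / (B : ℝ) ^ (n + 1)), ?_,
      fun a ha => ⟨?_, (mem_filter.1 ha).2⟩⟩
    · have h1 := card_filter_add_card_filter_not (s := range (B / 2))
        fun a : ℕ => badT_G B (n + 1) (x + 2 * a / (B : ℝ) ^ (n + 1))
      have h2 : ((range (B / 2)).filter
          fun a : ℕ => ¬ badT_G B (n + 1) (x + 2 * a / (B : ℝ) ^ (n + 1))).card ≤ 3 := by
        rcases ((range (B / 2)).filter fun a : ℕ =>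
          ¬ badT_G B (n + 1) (x + 2 * a / (B : ℝ) ^ (n + 1))).eq_empty_or_nonempty with h | ⟨a, ha⟩
        · rw [h]; simp
        · refine (card_le_card (t := Icc (a - 1) (a + 1)) fun a' ha' => ?_).trans ?_
          · obtain ⟨u1, u2⟩ := mem_filter.1 ha
            obtain ⟨u3, u4⟩ := mem_filter.1 ha'
            have v1 := badT_near hB (mem_range.1 u1) (mem_range.1 u3) u2 u4
            have v2 := badT_near hB (mem_range.1 u3) (mem_range.1 u1) u4 u2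
            exact mem_Icc.2 ⟨by omega, v1⟩
          · rw [Nat.card_Icc]; omega
      rw [card_range] at h1
      omega
    · have := mem_range.1 (mem_filter.1 ha).1
      omega
  · have hex : ∃ n : ℕ, 4 * (b : ℝ) ^ 2 * B < (B : ℝ) ^ n :=
      pow_unbounded_of_one_lt _ (by linarith)
    have h1 := Nat.find_spec hex
    have h2 : (B : ℝ) ^ Nat.find hex ≤ 4 * (b : ℝ) ^ 2 * B * B := by
      rcases h : Nat.find hex with _ | m
      · have := hsq b hb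
        rw [pow_zero]
        have a1 : (1 : ℝ) ≤ 4 * (b : ℝ) ^ 2 * B := by nlinarith
        nlinarith
      · have := Nat.find_min hex (m := m) (by omega)
        rw [pow_succ]
        exact mul_le_mul_of_nonneg_right (not_lt.1 this) (by linarith)
    obtain ⟨x, hx, x1, x2⟩ := hζ (Nat.find hex)
    have h3 := hx b e hb h1 ζ x1 x2
    have hp : (0 : ℝ) < (B : ℝ) ^ Nat.find hex := by positivity
    have h4 := mul_le_mul_of_nonneg_left h3 (show 0 ≤ 4 * (B : ℝ) ^ 2 * |(b : ℝ)| by positivity)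
    refine le_trans ?_ h4
    rw [← mul_assoc, mul_one_div, le_div_iff₀ hp, mul_assoc (4 * (B : ℝ) ^ 2), abs_mul_abs_self]
    linarith

end Pool.Agent.Lib.MP_e56372_nt.Fd
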