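import Pool.Agent.Lib.MP_e56372_nt.Fd.Defs

/-! The potential game, `r` stages at once: a quarter of the descendants survives. -/

set_option autoImplicit false
open Finset

namespace Pool.Agent.Lib.MP_e56372_nt.Fd

namespace GameTx

variable {ι : Type} {Λ : ℕ → Finset ι} {w : ι → ℝ} {C : ℕ → ι → Set ℝ}

lemma sum_blocks (f : ℕ → ℝ) (b k : ℕ) :
    ∑ a ∈ range (b * k), f a = ∑ a ∈ range k, ∑ d ∈ range b, f (b * a + d) := by
  induction k with
  | zero => simp
  | succ k ih => rw [Nat.mul_succ, sum_range_add, ih, sum_range_succ]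

lemma Phi_nonneg (hw : ∀ i, 0 ≤ w i) (N n : ℕ) (x : ℝ) : 0 ≤ Phi Λ w C N n x := by
  classical
  unfold Phi
  refine sum_nonneg fun m _ => sum_nonneg fun i _ => ?_
  split_ifs
  · have := hw i; positivity
  · exact le_rfl

lemma sub64 (n : ℕ) (x : ℝ) (a : ℕ) (ha : a < 64) :
    J (n + 1) (x + a / 64 ^ (n + 1)) ⊆ J n x := by
  intro y hy
  have h64 : (0 : ℝ) < 64 ^ (n + 1) := by positivity
  have ha' : (a : ℝ) ≤ 63 := by exact_mod_cast Nat.lt_succ_iff.1 ha
  have e : (1 : ℝ) / 64 ^ n = 64 / 64 ^ (n + 1) := by field_simp; ring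
  constructor
  · have : (0 : ℝ) ≤ a / 64 ^ (n + 1) := by positivity
    linarith [hy.1]
  · have h2 := hy.2
    have : (a : ℝ) / 64 ^ (n + 1) + 1 / 64 ^ (n + 1) ≤ 64 / 64 ^ (n + 1) := by
      rw [← add_div]; exact div_le_div_of_nonneg_right (by linarith) h64.le
    rw [e]; linarith

lemma Phi_succ (hw : ∀ i, 0 ≤ w i) (n : ℕ) (x : ℝ) :
    Phi Λ w C (n + 1) n x ≤ Phi Λ w C n n x + ∑ i ∈ Λ n, w i := by
  classical
  unfold Phi
  rw [sum_range_succ]
  refine add_le_add le_rfl (sum_le_sum fun i _ => ?_)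
  split_ifs
  · rw [mul_div_assoc, div_self (by positivity), mul_one]
  · exact hw i

lemma Phi_child (hw : ∀ i, 0 ≤ w i) {n : ℕ} {x x' : ℝ} (h : J (n + 1) x' ⊆ J n x) :
    Phi Λ w C (n + 1) (n + 1) x' ≤ 8 * Phi Λ w C (n + 1) n x := by
  classical
  unfold Phi
  rw [mul_sum]
  refine sum_le_sum fun m _ => ?_
  rw [mul_sum]
  refine sum_le_sum fun i _ => ?_
  have h0 := hw i
  by_cases hM : Meets w C (n + 1) x' m i
  · obtain ⟨c, hc, hn⟩ := id hM
    rw [if_pos hM, if_pos ⟨c, hc, hn.mono h⟩]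
    exact le_of_eq (by ring)
  · rw [if_neg hM]
    split_ifs
    · positivity
    · simp

lemma sum_child (hw : ∀ i, 0 ≤ w i) {n : ℕ} {x : ℝ} (h : Inv Λ w C n x) :
    ∑ a ∈ range 64, Phi Λ w C (n + 1) (n + 1) (x + a / 64 ^ (n + 1))
      ≤ 32 * Phi Λ w C (n + 1) n x := by
  classical
  set ch : ℕ → ℝ := fun a => x + a / 64 ^ (n + 1) with hch
  change ∑ a ∈ range 64, Phi Λ w C (n + 1) (n + 1) (ch a) ≤ _
  unfold Phi
  rw [sum_comm, mul_sum]
  refine sum_le_sum fun m hm => ?_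
  rw [sum_comm, mul_sum]
  refine sum_le_sum fun i hi => ?_
  have hmn : m ≤ n := Nat.lt_succ_iff.1 (mem_range.1 hm)
  by_cases hM : Meets w C n x m i
  · rw [if_pos hM, ← sum_filter, sum_const]
    set F := Finset.filter (fun a => Meets w C (n + 1) (ch a) m i) (range 64) with hF
    have two : ∀ a ∈ F, ∀ b ∈ F, b < a + 4 := by
      intro a ha b hb
      rw [hF, Finset.mem_filter, Finset.mem_range] at ha hb
      obtain ⟨c, hc, hn⟩ := ha.2
      obtain ⟨c', hc', hn'⟩ := hb.2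
      have hcc : c = c' := h.2 m hmn i hi c hc c' hc'
        (hn.mono (sub64 n x a ha.1)) (hn'.mono (sub64 n x b hb.1))
      subst hcc
      obtain ⟨y, hy, h1⟩ := hn
      obtain ⟨y', hy', h2⟩ := hn'
      have ht := (term_le_Phi hw (Nat.lt_succ_of_le hmn) hi hM).trans h.1
      have hr : rad w m i ≤ 1 / 64 ^ (n + 1) := by
        rw [rad_eq m n i]
        have h0 : 0 ≤ w i * 8 ^ n / 8 ^ m := by have := hw i; positivity
        have : (w i * 8 ^ n / 8 ^ m) ^ 2 ≤ (1 / 8) ^ 2 := pow_le_pow_left₀ h0 ht 2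
        calc _ ≤ (1 / 8) ^ 2 / (64 : ℝ) ^ n := div_le_div_of_nonneg_right this (by positivity)
          _ = _ := by field_simp; ring
      set u : ℝ := 1 / 64 ^ (n + 1) with hu
      have hu0 : 0 < u := by positivity
      have ea : ∀ a : ℕ, ch a = x + a * u := fun a => by simp only [hch, hu]; ring
      simp only [J, ea, ← hu, Set.mem_Icc] at hy hy'
      rw [abs_lt] at h1 h2
      by_contra hab
      have : (a : ℝ) + 4 ≤ b := by exact_mod_cast not_lt.1 hab
      nlinarith [hy.2, hy'.1]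
    have hc : F.card ≤ 4 := by
      rcases F.eq_empty_or_nonempty with h0 | h0
      · simp [h0]
      · have : F ⊆ Ico (F.min' h0) (F.min' h0 + 4) := fun b hb =>
          mem_Ico.2 ⟨F.min'_le b hb, two _ (F.min'_mem h0) b hb⟩
        simpa using card_le_card this
    have h0 : 0 ≤ w i * 8 ^ (n + 1) / 8 ^ m := by have := hw i; positivity
    have hc' : (F.card : ℝ) ≤ 4 := by exact_mod_cast hc
    rw [nsmul_eq_mul]
    calc _ ≤ 4 * (w i * 8 ^ (n + 1) / 8 ^ m) := mul_le_mul_of_nonneg_right hc' h0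
      _ = _ := by ring
  · rw [if_neg hM, mul_zero]
    refine le_of_eq (sum_eq_zero fun a ha => if_neg ?_)
    rintro ⟨c, hc, hn⟩
    exact hM ⟨c, hc, hn.mono (sub64 n x a (mem_range.1 ha))⟩

lemma desc (r : ℕ) (η : ℝ) (hη : 0 ≤ η) (hη2 : 8 ^ r * η ≤ 1 / 32) (hw : ∀ i, 0 ≤ w i)
    (hS : ∀ n, ∑ i ∈ Λ n, w i ≤ η / 128)
    (hU : ∀ n x, (∀ m < n, ∀ i ∈ Λ m, 1 / 64 ^ n ≤ rad w m i → ¬ Meets w C n x m i) →
      ∀ i ∈ Λ n, Uniq w C n x n i) {n : ℕ} {x : ℝ} (h1 : Phi Λ w C n n x ≤ η)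
    (h2 : ∀ m < n, ∀ i ∈ Λ m, Uniq w C n x m i) (j : ℕ) (hj : j ≤ r) :
    (∀ a < 64 ^ j, Phi Λ w C (n + j) (n + j) (x + (a : ℕ) / 64 ^ (n + j))
        ≤ 8 ^ j * (η + η / 112) - η / 112 ∧
      ∀ m < n + j, ∀ i ∈ Λ m, Uniq w C (n + j) (x + (a : ℕ) / 64 ^ (n + j)) m i) ∧
    ∑ a ∈ range (64 ^ j), Phi Λ w C (n + j) (n + j) (x + a / 64 ^ (n + j))
      ≤ 32 ^ j * η + 64 ^ j * (η / 128) := by
  have h8 : (1 : ℝ) ≤ 8 ^ r := one_le_pow₀ (by norm_num)
  have hS' : ∀ n, ∑ i ∈ Λ n, w i ≤ 1 / 16 := fun n => (hS n).trans (by nlinarith)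
  induction j with
  | zero =>
    refine ⟨fun a ha => ?_, ?_⟩
    · obtain rfl : a = 0 := by simpa using ha
      simpa using ⟨h1, h2⟩
    · simp only [pow_zero, range_one, sum_singleton, Nat.cast_zero, zero_div, add_zero, one_mul]
      linarith
  | succ j ih =>
    obtain ⟨i1, i2⟩ := ih (by omega)
    have h9 : (8 : ℝ) ^ j ≤ 8 ^ r := pow_le_pow_right₀ (by norm_num) (by omega)
    have inv : ∀ a < 64 ^ j, Inv Λ w C (n + j) (x + (a : ℕ) / 64 ^ (n + j)) := fun a ha =>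
      inv_of hw hS' hU ((i1 a ha).1.trans (by
        have := mul_le_mul_of_nonneg_right h9 hη
        linarith)) (i1 a ha).2
    have e : ∀ a d : ℕ, x + ((64 * a + d : ℕ) : ℝ) / 64 ^ (n + (j + 1))
        = x + (a : ℝ) / 64 ^ (n + j) + d / 64 ^ (n + j + 1) := fun a d => by
      push_cast
      rw [← add_assoc n j 1]
      field_simp
      ring
    refine ⟨fun a ha => ?_, ?_⟩
    · have a1 : a / 64 < 64 ^ j := by
        rw [Nat.div_lt_iff_lt_mul (by norm_num)]; rwa [pow_succ] at ha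
      have a2 : a % 64 < 64 := Nat.mod_lt _ (by norm_num)
      have a3 := sub64 (n + j) (x + ((a / 64 : ℕ) : ℝ) / 64 ^ (n + j)) (a % 64) a2
      have a4 := e (a / 64) (a % 64)
      rw [Nat.div_add_mod] at a4
      rw [a4, ← add_assoc n j 1]
      refine ⟨(Phi_child hw a3).trans ?_, fun m hm i hi c hc c' hc' p q => ?_⟩
      · have b1 := Phi_succ (Λ := Λ) (C := C) hw (n + j) (x + ((a / 64 : ℕ) : ℝ) / 64 ^ (n + j))
        have b2 := (i1 _ a1).1
        have b3 := hS (n + j)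
        rw [pow_succ]
        linarith
      · exact (inv _ a1).2 m (Nat.lt_succ_iff.1 hm) i hi c hc c' hc' (p.mono a3) (q.mono a3)
    · rw [pow_succ' 64 j, sum_blocks]
      simp only [e]
      rw [← add_assoc n j 1]
      have b1 : ∀ a ∈ range (64 ^ j), ∑ d ∈ range 64, Phi Λ w C (n + j + 1) (n + j + 1)
          (x + (a : ℝ) / 64 ^ (n + j) + d / 64 ^ (n + j + 1)) ≤
          32 * (Phi Λ w C (n + j) (n + j) (x + (a : ℝ) / 64 ^ (n + j)) + η / 128) := fun a ha =>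
        (sum_child hw (inv a (mem_range.1 ha))).trans (by
          have := Phi_succ (Λ := Λ) (C := C) hw (n + j) (x + (a : ℝ) / 64 ^ (n + j))
          have := hS (n + j)
          linarith)
      refine (sum_le_sum b1).trans ?_
      rw [← mul_sum, sum_add_distrib, sum_const, card_range, nsmul_eq_mul, pow_succ, pow_succ]
      push_cast
      linarith

end GameTx

open GameTx in
theorem game_tree {ι : Type} {Λ : ℕ → Finset ι} {w : ι → ℝ} {C : ℕ → ι → Set ℝ} (r : ℕ)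
    (hr : 3 ≤ r) (hw : ∀ i, 0 ≤ w i) (hS : ∀ n, ∑ i ∈ Λ n, w i ≤ 1 / (4096 * 8 ^ r))
    (hU : ∀ n x, (∀ m < n, ∀ i ∈ Λ m, 1 / 64 ^ n ≤ rad w m i → ¬ Meets w C n x m i) →
      ∀ i ∈ Λ n, Uniq w C n x n i) :
    ∃ G, Branch (64 ^ r) (64 ^ r / 4) G ∧ ∀ ξ ∈ Lim (64 ^ r) G,
      ∀ n, ∀ i ∈ Λ n, ∀ c ∈ C n i, rad w n i ≤ |ξ - c| := by
  classical
  set η : ℝ := 1 / (32 * 8 ^ r) with hη
  have η0 : 0 < η := by positivity
  have η2 : 8 ^ r * η ≤ 1 / 32 := le_of_eq (by rw [hη]; field_simp)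
  have h8 : (1 : ℝ) ≤ 8 ^ r := one_le_pow₀ (by norm_num)
  have η1 : η ≤ 1 := by nlinarith
  have hS' : ∀ n, ∑ i ∈ Λ n, w i ≤ η / 128 := fun n =>
    (hS n).trans (le_of_eq (by rw [hη]; field_simp; norm_num))
  have cast : ∀ N : ℕ, ((64 ^ r : ℕ) : ℝ) ^ N = 64 ^ (r * N) := fun N => by
    push_cast; rw [pow_mul]
  refine ⟨fun N x => Phi Λ w C (r * N) (r * N) x ≤ η ∧
    ∀ m < r * N, ∀ i ∈ Λ m, Uniq w C (r * N) x m i, ⟨⟨?_, ?_⟩, fun N x hx => ?_⟩, ?_⟩
  · simp only [Phi, mul_zero, range_zero, sum_empty]; exact η0.le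
  · simp
  · obtain ⟨d1, d2⟩ := desc r η η0.le η2 hw hS' hU hx.1 hx.2 r le_rfl
    obtain ⟨k, hk⟩ : ∃ k, 64 ^ r = 4 * k := by
      obtain ⟨s, rfl⟩ : ∃ s, r = s + 1 := ⟨r - 1, by omega⟩
      exact ⟨16 * 64 ^ s, by rw [pow_succ]; ring⟩
    set f : ℕ → ℝ := fun a => Phi Λ w C (r * N + r) (r * N + r) (x + a / 64 ^ (r * N + r)) with hf
    have f0 : ∀ a, 0 ≤ f a := fun a => Phi_nonneg hw _ _ _
    set P : ℕ → Prop := fun a => f (2 * a) ≤ η with hP
    have s1 : ∑ a ∈ range (2 * k), f (2 * a) ≤ k * η := by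
      have t1 : ∑ a ∈ range (2 * k), f (2 * a) ≤ ∑ a ∈ range (64 ^ r), f a := by
        rw [hk, show 4 * k = 2 * (2 * k) by ring, sum_blocks f 2]
        refine sum_le_sum fun a _ => ?_
        rw [sum_range_succ, sum_range_one]
        exact le_add_of_nonneg_right (f0 _)
      have t2 : (64 : ℝ) ^ r = 4 * k := by exact_mod_cast hk
      have t3 : (8 : ℝ) * 32 ^ r ≤ 64 ^ r := by
        have : (2 : ℝ) ^ 3 ≤ 2 ^ r := pow_le_pow_right₀ (by norm_num) hr
        calc (8 : ℝ) * 32 ^ r = 2 ^ 3 * 32 ^ r := by norm_num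
          _ ≤ 2 ^ r * 32 ^ r := by gcongr
          _ = 64 ^ r := by rw [← mul_pow]; norm_num
      have t4 := mul_le_mul_of_nonneg_right t3 η0.le
      have t5 : (0 : ℝ) ≤ k * η := by positivity
      refine t1.trans (d2.trans ?_)
      rw [t2] at t4 ⊢
      linarith
    refine ⟨(range (2 * k)).filter P, ?_, fun a ha => ?_⟩
    · have c1 := card_filter_add_card_filter_not (s := range (2 * k)) P
      rw [card_range] at c1
      have c2 : (((range (2 * k)).filter fun a => ¬ P a).card : ℝ) * η ≤ k * η := by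
        refine le_trans ?_ s1
        refine le_trans ?_ (sum_le_sum_of_subset_of_nonneg (filter_subset (fun a => ¬ P a) _)
          fun a _ _ => f0 _)
        rw [← nsmul_eq_mul]
        exact card_nsmul_le_sum _ _ _ fun a ha => (not_le.1 (mem_filter.1 ha).2).le
      have c3 : ((range (2 * k)).filter fun a => ¬ P a).card ≤ k := by
        exact_mod_cast le_of_mul_le_mul_right c2 η0
      omega
    · obtain ⟨a1, a2⟩ := mem_filter.1 ha
      have a3 : 2 * a < 64 ^ r := by have := mem_range.1 a1; omega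
      refine ⟨a3, ?_⟩
      have a4 := (d1 _ a3).2
      simp only [hP, hf] at a2
      push_cast at a2 a4
      rw [cast, Nat.mul_succ]
      exact ⟨a2, a4⟩
  · intro ξ hξ m i hi c hc
    by_contra hlt
    push Not at hlt
    have hb : ∀ k : ℕ, w i * 8 ^ k ≤ 1 := by
      intro k
      obtain ⟨x, h1, h2⟩ := hξ (m + k + 1)
      rw [cast] at h2
      have l1 : m + k + 1 ≤ r * (m + k + 1) := Nat.le_mul_of_pos_left _ (by omega)
      have := (term_le_Phi hw (N := r * (m + k + 1)) (n := r * (m + k + 1)) (by omega) hi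
        ⟨c, hc, ξ, h2, hlt⟩).trans (h1.1.trans η1)
      refine le_trans ?_ this
      rw [le_div_iff₀ (by positivity), mul_assoc, ← pow_add]
      exact mul_le_mul_of_nonneg_left (pow_le_pow_right₀ (by norm_num) (by omega)) (hw i)
    have hw0 : w i = 0 := by
      by_contra hne
      have hpos : 0 < w i := lt_of_le_of_ne (hw i) (Ne.symm hne)
      obtain ⟨k, hk⟩ := pow_unbounded_of_one_lt (1 / w i) (by norm_num : (1 : ℝ) < 8)
      have := hb k
      rw [div_lt_iff₀ hpos] at hk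
      nlinarith
    simp [rad, hw0] at hlt
    linarith [abs_nonneg (ξ - c)]

end Pool.Agent.Lib.MP_e56372_nt.Fd
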