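import Pool.Agent.Lib.MP_e56372_nt.Fd.Defs
import Pool.Agent.Lib.MP_e56372_nt.Fd.GameT

set_option autoImplicit false
open Finset Filter Topology
open scoped NNReal ENNReal

namespace Pool.Agent.Lib.MP_e56372_nt.Fd
open Pool.Agent.Lib.MP_e56372_nt

lemma coreT_sum_w (S : Setup) (n : ℕ) : ∑ i ∈ S.Λ n, S.w i ≤ 4 * ∑ k ∈ S.act n, S.t k := by
  unfold Setup.Λ Setup.w
  rw [sum_product]
  simp only [sum_const, card_univ, Fintype.card_bool, nsmul_eq_mul, Nat.cast_ofNat]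
  rw [sum_product]
  have : ∀ k ∈ S.act n, ∑ j ∈ range ((S.act n).sup fun k => ⌈S.Q k⌉₊), S.t k / 2 ^ j
      ≤ 2 * S.t k := by
    intro k _
    have h := sum_geometric_two_le ((S.act n).sup fun k => ⌈S.Q k⌉₊)
    calc _ = S.t k * ∑ j ∈ range ((S.act n).sup fun k => ⌈S.Q k⌉₊), (1 / 2 : ℝ) ^ j := by
          rw [mul_sum]; refine sum_congr rfl fun j _ => ?_
          rw [div_pow, one_pow]; ring
      _ ≤ S.t k * 2 := mul_le_mul_of_nonneg_left h (S.t0 k).le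
      _ = _ := by ring
  have h2 := sum_le_sum this
  rw [← mul_sum] at h2
  linarith

lemma coreT_setup (S : Setup) (r : ℕ) (hr : 3 ≤ r)
    (hs : ∀ n, ∑ k ∈ S.act n, S.t k ≤ 1 / (2 ^ 14 * 8 ^ r)) :
    ∃ G, Branch (64 ^ r) (64 ^ r / 4) G ∧ ∀ ξ ∈ Lim (64 ^ r) G,
      ∀ k, ∀ q p e : ℤ, 0 < q → (q : ℝ) ≤ S.Q k → |q * S.ζ - e| ≤ 1 →
        S.t k ^ 12 ≤ S.Q k * (|q * ξ - p| * |q * S.ζ - e|) := by
  obtain ⟨G, hG, hξ⟩ := game_tree (Λ := S.Λ) (w := S.w) (C := S.C) r hr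
    (fun i => by unfold Setup.w; have := S.t0 i.2.1; positivity) (fun n => by
      refine (coreT_sum_w S n).trans ((mul_le_mul_of_nonneg_left (hs n) (by norm_num)).trans
        (le_of_eq ?_))
      field_simp
      norm_num) (by
      rintro n x h ⟨β, k, j⟩ _
      cases β
      · exact S.uniq_dual h k j
      · exact S.uniq_primal h k j)
  refine ⟨G, hG, fun ξ hx k q p e hq h1 h2 => ?_⟩
  obtain ⟨m, j, hΛ, hC, c1⟩ := S.primal_cover k p e hq h1 h2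
  have := hξ ξ hx m _ hΛ _ hC
  rw [S.rad_w] at this
  have hq0 : (0 : ℝ) < q := by exact_mod_cast hq
  have e3 : ξ - p / q = (q * ξ - p) / q := by field_simp
  rw [e3, abs_div, abs_of_pos hq0, le_div_iff₀ hq0] at this
  have hQ := S.Q0 k
  calc _ ≤ _ := c1
    _ = S.Q k * (S.ρ m k j * q * |q * S.ζ - e|) := by ring
    _ ≤ _ := by gcongr

lemma coreT_act (r : ℕ) (κ : ℝ) (hκ : 1 ≤ κ) (m : ℕ → ℕ)
    (t Q : ℕ → ℝ) (hm : StrictMono m) (hm0 : 3 * κ ≤ 2 ^ m 0) (hQ1 : ∀ k, 2 ^ m k ≤ Q k)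
    (hQ2 : ∀ k, Q k ≤ 3 * κ * 2 ^ m k) (t0 : ∀ k, 0 < t k)
    (t1 : ∀ k, t k ≤ 1 / (2 ^ 24 * 8 ^ r))
    (hs : ∀ k, m k + 2 ^ 20 * 8 ^ r * t k * m k ≤ m (k + 1)) (n : ℕ) (A : Finset ℕ)
    (hA : ∀ k ∈ A, 64 ^ n ≤ Q k ^ 3 ∧ Q k ≤ (64 ^ n) ^ 4) :
    ∑ k ∈ A, t k ≤ 1 / (2 ^ 14 * 8 ^ r) := by
  have hm1 : ∀ k, 1 ≤ m k := fun k => by
    refine le_trans ?_ (hm.monotone (Nat.zero_le k))
    by_contra h
    have : m 0 = 0 := by omega
    rw [this, pow_zero] at hm0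
    linarith
  have h8 : (0 : ℝ) < 8 ^ r := by positivity
  rcases A.eq_empty_or_nonempty with h | h
  · rw [h, sum_empty]; positivity
  set a := A.min' h
  set b := A.max' h
  have ha := hA a (A.min'_mem h)
  have hb := hA b (A.max'_mem h)
  have hab : a ≤ b := A.min'_le_max' h
  have hQa : 0 ≤ Q a := le_trans (by positivity) (hQ1 a)
  have h12 : m b ≤ 24 * m a := by
    have e1 : Q a ≤ 2 ^ (2 * m a) := by
      calc Q a ≤ 3 * κ * 2 ^ m a := hQ2 a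
        _ ≤ 2 ^ m a * 2 ^ m a := by
            refine mul_le_mul_of_nonneg_right (hm0.trans ?_) (by positivity)
            exact pow_le_pow_right₀ (by norm_num) (hm.monotone (Nat.zero_le a))
        _ = _ := by rw [two_mul, pow_add]
    have e2 : (2 : ℝ) ^ m b ≤ 2 ^ (24 * m a) := by
      calc (2 : ℝ) ^ m b ≤ (64 ^ n) ^ 4 := (hQ1 b).trans hb.2
        _ ≤ (Q a ^ 3) ^ 4 := pow_le_pow_left₀ (by positivity) ha.1 4
        _ ≤ ((2 ^ (2 * m a)) ^ 3) ^ 4 := by gcongr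
        _ = _ := by rw [← pow_mul, ← pow_mul]; congr 1; ring
    exact (pow_le_pow_iff_right₀ (by norm_num : (1 : ℝ) < 2)).1 e2
  have hsub : A ⊆ Ico a (b + 1) := fun k hk =>
    mem_Ico.2 ⟨A.min'_le k hk, Nat.lt_succ_of_le (A.le_max' k hk)⟩
  have h1 := sum_le_sum_of_subset_of_nonneg hsub (f := t) fun k _ _ => (t0 k).le
  rw [sum_Ico_succ_top hab] at h1
  have hma : (0 : ℝ) < m a := by exact_mod_cast hm1 a
  have h2 : (∑ k ∈ Ico a b, t k) * (2 ^ 20 * 8 ^ r * m a) ≤ m b - m a := by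
    rw [sum_mul, ← sum_Ico_sub (fun k => (m k : ℝ)) hab]
    refine sum_le_sum fun k hk => ?_
    have h3 : (m a : ℝ) ≤ m k := by exact_mod_cast hm.monotone (mem_Ico.1 hk).1
    have h4 := hs k
    have h5 : 0 ≤ 2 ^ 20 * 8 ^ r * t k := by have := t0 k; positivity
    have := mul_le_mul_of_nonneg_left h3 h5
    linarith
  have h12' : (m b : ℝ) ≤ 24 * m a := by exact_mod_cast h12
  have h4 : ∑ k ∈ Ico a b, t k ≤ 23 / (2 ^ 20 * 8 ^ r) := by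
    rw [le_div_iff₀ (by positivity)]
    refine le_of_mul_le_mul_right ?_ hma
    rw [mul_assoc]
    linarith
  have h5 := t1 b
  have e1 : (23 : ℝ) / (2 ^ 20 * 8 ^ r) = 23 / 2 ^ 20 * (1 / 8 ^ r) := by field_simp
  have e2 : (1 : ℝ) / (2 ^ 24 * 8 ^ r) = 1 / 2 ^ 24 * (1 / 8 ^ r) := by field_simp
  have e3 : (1 : ℝ) / (2 ^ 14 * 8 ^ r) = 1 / 2 ^ 14 * (1 / 8 ^ r) := by field_simp
  have e4 : (0 : ℝ) < 1 / 8 ^ r := by positivity
  rw [e1] at h4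
  rw [e2] at h5
  rw [e3]
  generalize (1 : ℝ) / 8 ^ r = u at h4 h5 e4 ⊢
  linarith

theorem core_tree (r : ℕ) (hr : 3 ≤ r) (κ ζ : ℝ) (hκ : 1 ≤ κ) (hZ : BadK κ ζ) (m : ℕ → ℕ)
    (t Q : ℕ → ℝ) (hm : StrictMono m) (hm0 : 3 * κ ≤ 2 ^ m 0) (hQ1 : ∀ k, 2 ^ m k ≤ Q k)
    (hQ2 : ∀ k, Q k ≤ 3 * κ * 2 ^ m k) (hL : ∀ k, LevOK ζ (Q k)) (t0 : ∀ k, 0 < t k)
    (t1 : ∀ k, t k ≤ 1 / (2 ^ 24 * 8 ^ r)) (hE : ∀ k, 2 ^ 33 * t k ^ 20 * κ < 1)
    (hQ : ∀ k, 1 ≤ t k ^ 20 * 2 ^ m k)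
    (hs : ∀ k, m k + 2 ^ 20 * 8 ^ r * t k * m k ≤ m (k + 1)) :
    ∃ G, Branch (64 ^ r) (64 ^ r / 4) G ∧ ∀ ξ ∈ Lim (64 ^ r) G,
      ∀ k, t k ^ 12 ≤ Q k * mmin ξ ζ (Q k) := by
  classical
  have h8 : (1 : ℝ) ≤ 8 ^ r := one_le_pow₀ (by norm_num)
  have hl1 : ∀ k, 1 ≤ Q k := fun k => (one_le_pow₀ (by norm_num)).trans (hQ1 k)
  let P : ℕ → ℕ → Prop := fun n k => 64 ^ n ≤ Q k ^ 3 ∧ Q k ≤ (64 ^ n) ^ 4
  have key := fun n => coreT_act r κ hκ m t Q hm hm0 hQ1 hQ2 t0 t1 hs n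
    ((range ((64 ^ n) ^ 4 + 1)).filter (P n)) fun k hk => (mem_filter.1 hk).2
  let S : Setup :=
    { ζ := ζ, κ := κ, Q := Q, t := t
      act := fun n => (range ((64 ^ n) ^ 4 + 1)).filter (P n)
      hZ2 := hZ
      hZ1 := hL
      t0 := t0
      t1 := fun k => (t1 k).trans (one_div_le_one_div_of_le (by positivity)
        (le_mul_of_one_le_right (by positivity) h8))
      hE := hE
      hQ := fun k => (hQ k).trans (mul_le_mul_of_nonneg_left (hQ1 k) (by have := t0 k; positivity))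
      hact := fun n k h1 h2 => by
        refine mem_filter.2 ⟨mem_range.2 (Nat.lt_succ_of_le ?_), h1, h2⟩
        have h3 : k ≤ 2 ^ m k := (hm.id_le k).trans Nat.lt_two_pow_self.le
        have h4 : (k : ℝ) ≤ 2 ^ m k := by exact_mod_cast h3
        have := (h4.trans (hQ1 k)).trans h2
        exact_mod_cast this
      hsum := fun n => (key n).trans (one_div_le_one_div_of_le (by norm_num) (by nlinarith)) }
  obtain ⟨G, hG, hξ⟩ := coreT_setup S r hr key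
  refine ⟨G, hG, fun ξ hx k => ?_⟩
  have h0 : 0 < Q k := lt_of_lt_of_le one_pos (hl1 k)
  rw [← div_le_iff₀' h0]
  refine le_mmin _ _ (hl1 k) fun q hq hqQ => ?_
  rw [div_le_iff₀' h0]
  have := hξ ξ hx k q (round ((q : ℝ) * ξ)) (round ((q : ℝ) * ζ)) (by exact_mod_cast hq)
    (by exact_mod_cast hqQ) (by
      have := abs_sub_round ((q : ℝ) * ζ)
      push_cast; linarith)
  simpa using this

end Pool.Agent.Lib.MP_e56372_nt.Fd
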