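import Pool.Agent.Lib.MP_e56372_nt.Fd.Defs
import Pool.Agent.Lib.MP_e56372_nt.Fd.CoreT

set_option autoImplicit false
open Finset Filter Topology
open scoped NNReal ENNReal

namespace Pool.Agent.Lib.MP_e56372_nt.Fd
open Pool.Agent.Lib.MP_e56372_nt

/-- rationals of small height, the extra objects of the game. -/
def coreB_rat (n : ℕ) : Set ℝ := {c | ∃ q p : ℤ, c = p / q ∧ 0 < q ∧ 4 * (q : ℝ) ^ 2 < 64 ^ n}

lemma coreB_setup (S : Setup) (r : ℕ) (hr : 3 ≤ r)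
    (hs : ∀ n, ∑ k ∈ S.act n, S.t k ≤ 1 / (2 ^ 15 * 8 ^ r)) :
    ∃ G, Branch (64 ^ r) (64 ^ r / 4) G ∧ ∀ ξ ∈ Lim (64 ^ r) G, (∃ κ' : ℝ, BadK κ' ξ) ∧
      ∀ k, ∀ q p e : ℤ, 0 < q → (q : ℝ) ≤ S.Q k → |q * S.ζ - e| ≤ 1 →
        S.t k ^ 12 ≤ S.Q k * (|q * ξ - p| * |q * S.ζ - e|) := by
  classical
  obtain ⟨u, hu⟩ : ∃ u : ℝ, u = 1 / (8192 * 8 ^ r) := ⟨_, rfl⟩
  have h8 : (1 : ℝ) ≤ 8 ^ r := one_le_pow₀ (by norm_num)
  have u0 : 0 < u := by rw [hu]; positivity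
  have u1 : u < 1 := by rw [hu, div_lt_one (by positivity)]; linarith
  let w : Option (Bool × ℕ × ℕ) → ℝ := fun i => i.elim u S.w
  let C : ℕ → Option (Bool × ℕ × ℕ) → Set ℝ := fun n i => i.elim (coreB_rat n) (S.C n)
  obtain ⟨G, hG, hξ⟩ := game_tree (Λ := fun n => insertNone (S.Λ n)) (w := w) (C := C) r hr
    (by
      rintro (_ | i)
      · exact u0.le
      · show 0 ≤ S.w i
        unfold Setup.w; have := S.t0 i.2.1; positivity) (fun n => by
      rw [sum_insertNone]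
      show u + ∑ i ∈ S.Λ n, S.w i ≤ _
      have h1 := (coreT_sum_w S n).trans (mul_le_mul_of_nonneg_left (hs n) (by norm_num))
      have e1 : (4 : ℝ) * (1 / (2 ^ 15 * 8 ^ r)) = u := by rw [hu]; field_simp; norm_num
      have e2 : (1 : ℝ) / (4096 * 8 ^ r) = 2 * u := by rw [hu]; field_simp; norm_num
      linarith) (by
      rintro n x h (_ | ⟨β, k, j⟩) _
      · rintro c ⟨q, p, rfl, hq, a1⟩ c' ⟨q', p', rfl, hq', b1⟩ hn hn'
        have l0 : (0 : ℝ) < 64 ^ n := by positivity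
        have hρ : rad w n none < 1 / 64 ^ n :=
          div_lt_div_of_pos_right (pow_lt_one₀ u0.le u1 two_ne_zero) l0
        have hx := abs_le.1 (Setup.near_left hn hρ)
        have hx' := abs_le.1 (Setup.near_left hn' hρ)
        have q0 : (0 : ℝ) < q := by exact_mod_cast hq
        have q0' : (0 : ℝ) < q' := by exact_mod_cast hq'
        have h1 : |(p : ℝ) / q - p' / q'| ≤ 4 * (1 / 64 ^ n) := by
          rw [abs_le]; constructor <;> linarith [hx.1, hx.2, hx'.1, hx'.2]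
        have h2 : 4 * ((q : ℝ) * q') < 64 ^ n := by nlinarith [sq_nonneg ((q : ℝ) - q')]
        have e : (p : ℝ) / q - p' / q' = ((p * q' - q * p' : ℤ) : ℝ) / (q * q') := by
          push_cast; field_simp
        rw [e, abs_div, abs_of_pos (mul_pos q0 q0'), div_le_iff₀ (mul_pos q0 q0')] at h1
        have h3 : 4 * (1 / 64 ^ n) * ((q : ℝ) * q') < 1 := by
          rw [mul_one_div, div_mul_eq_mul_div, div_lt_one l0]; exact h2
        have h4 : |p * q' - q * p'| < 1 := by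
          have := h1.trans_lt h3
          rw [← Int.cast_abs] at this
          exact_mod_cast this
        rw [← sub_eq_zero, e, Int.abs_lt_one_iff.1 h4]
        simp
      · have h' : ∀ m < n, ∀ i ∈ S.Λ m, 1 / 64 ^ n ≤ rad S.w m i → ¬ Meets S.w S.C n x m i :=
          fun m hm i hi => h m hm (some i) (some_mem_insertNone.2 hi)
        cases β
        · exact S.uniq_dual h' k j
        · exact S.uniq_primal h' k j)
  refine ⟨G, hG, fun ξ hx => ⟨⟨256 / u ^ 2, ?_⟩, fun k q p e hq h1 h2 => ?_⟩⟩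
  · have main : ∀ q p : ℤ, 0 < q → 1 ≤ 256 / u ^ 2 * (q : ℝ) * |q * ξ - p| := by
      intro q p hq
      have q1 : (1 : ℝ) ≤ q := by exact_mod_cast hq
      obtain ⟨n, n1, n2⟩ := exists_nat_pow_near (x := 4 * (q : ℝ) ^ 2) (y := 64) (by nlinarith)
        (by norm_num)
      have h3 : u ^ 2 / 64 ^ (n + 1) ≤ |ξ - p / q| :=
        hξ ξ hx (n + 1) none none_mem_insertNone _ ⟨q, p, rfl, hq, n2⟩
      have e3 : ξ - p / q = (q * ξ - p) / q := by field_simp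
      rw [e3, abs_div, abs_of_pos (by linarith : (0 : ℝ) < q),
        div_le_div_iff₀ (by positivity) (by linarith), pow_succ (64 : ℝ)] at h3
      have h4 := mul_le_mul_of_nonneg_left n1 (abs_nonneg ((q : ℝ) * ξ - p))
      rw [div_mul_eq_mul_div, div_mul_eq_mul_div, le_div_iff₀ (by positivity)]
      refine le_of_mul_le_mul_right ?_ (show (0 : ℝ) < q by linarith)
      linarith
    intro b e hb
    rcases lt_or_gt_of_ne hb with h | h
    · have := main (-b) e (by omega)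
      have hb' : (b : ℝ) < 0 := by exact_mod_cast h
      rw [abs_of_neg hb', ← abs_neg]
      push_cast at this
      convert this using 3
      ring
    · have := main b (-e) h
      have hb' : (0 : ℝ) < b := by exact_mod_cast h
      rw [abs_of_pos hb']
      push_cast at this
      convert this using 3
      ring
  obtain ⟨m, j, hΛ, hC, c1⟩ := S.primal_cover k p e hq h1 h2
  have : rad S.w m (true, k, j) ≤ _ := hξ ξ hx m (some _) (some_mem_insertNone.2 hΛ) _ hC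
  rw [S.rad_w] at this
  have hq0 : (0 : ℝ) < q := by exact_mod_cast hq
  have e3 : ξ - p / q = (q * ξ - p) / q := by field_simp
  rw [e3, abs_div, abs_of_pos hq0, le_div_iff₀ hq0] at this
  have hQ := S.Q0 k
  calc _ ≤ _ := c1
    _ = S.Q k * (S.ρ m k j * q * |q * S.ζ - e|) := by ring
    _ ≤ _ := by gcongr

lemma coreB_act (r : ℕ) (κ : ℝ) (hκ : 1 ≤ κ) (m : ℕ → ℕ)
    (t Q : ℕ → ℝ) (hm : StrictMono m) (hm0 : 3 * κ ≤ 2 ^ m 0) (hQ1 : ∀ k, 2 ^ m k ≤ Q k)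
    (hQ2 : ∀ k, Q k ≤ 3 * κ * 2 ^ m k) (t0 : ∀ k, 0 < t k)
    (t1 : ∀ k, t k ≤ 1 / (2 ^ 24 * 8 ^ r))
    (hs : ∀ k, m k + 2 ^ 20 * 8 ^ r * t k * m k ≤ m (k + 1)) (n : ℕ) (A : Finset ℕ)
    (hA : ∀ k ∈ A, 64 ^ n ≤ Q k ^ 3 ∧ Q k ≤ (64 ^ n) ^ 4) :
    ∑ k ∈ A, t k ≤ 1 / (2 ^ 15 * 8 ^ r) := by
  have hm1 : ∀ k, 1 ≤ m k := fun k => by
    refine le_trans ?_ (hm.monotone (Nat.zero_le k))
    by_contra h
    have : m 0 = 0 := by omega
    rw [this, pow_zero] at hm0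
    linarith
  have h8 : (0 : ℝ) < 8 ^ r := by positivity
  rcases A.eq_empty_or_nonempty with h | h
  · rw [h, sum_empty]; positivity
  set a := A.min' h
  set b := A.max' h
  have ha := hA a (A.min'_mem h)
  have hb := hA b (A.max'_mem h)
  have hab : a ≤ b := A.min'_le_max' h
  have hQa : 0 ≤ Q a := le_trans (by positivity) (hQ1 a)
  have h12 : m b ≤ 24 * m a := by
    have e1 : Q a ≤ 2 ^ (2 * m a) := by
      calc Q a ≤ 3 * κ * 2 ^ m a := hQ2 a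
        _ ≤ 2 ^ m a * 2 ^ m a := by
            refine mul_le_mul_of_nonneg_right (hm0.trans ?_) (by positivity)
            exact pow_le_pow_right₀ (by norm_num) (hm.monotone (Nat.zero_le a))
        _ = _ := by rw [two_mul, pow_add]
    have e2 : (2 : ℝ) ^ m b ≤ 2 ^ (24 * m a) := by
      calc (2 : ℝ) ^ m b ≤ (64 ^ n) ^ 4 := (hQ1 b).trans hb.2
        _ ≤ (Q a ^ 3) ^ 4 := pow_le_pow_left₀ (by positivity) ha.1 4
        _ ≤ ((2 ^ (2 * m a)) ^ 3) ^ 4 := by gcongr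
        _ = _ := by rw [← pow_mul, ← pow_mul]; congr 1; ring
    exact (pow_le_pow_iff_right₀ (by norm_num : (1 : ℝ) < 2)).1 e2
  have hsub : A ⊆ Ico a (b + 1) := fun k hk =>
    mem_Ico.2 ⟨A.min'_le k hk, Nat.lt_succ_of_le (A.le_max' k hk)⟩
  have h1 := sum_le_sum_of_subset_of_nonneg hsub (f := t) fun k _ _ => (t0 k).le
  rw [sum_Ico_succ_top hab] at h1
  have hma : (0 : ℝ) < m a := by exact_mod_cast hm1 a
  have h2 : (∑ k ∈ Ico a b, t k) * (2 ^ 20 * 8 ^ r * m a) ≤ m b - m a := by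
    rw [sum_mul, ← sum_Ico_sub (fun k => (m k : ℝ)) hab]
    refine sum_le_sum fun k hk => ?_
    have h3 : (m a : ℝ) ≤ m k := by exact_mod_cast hm.monotone (mem_Ico.1 hk).1
    have h4 := hs k
    have h5 : 0 ≤ 2 ^ 20 * 8 ^ r * t k := by have := t0 k; positivity
    have := mul_le_mul_of_nonneg_left h3 h5
    linarith
  have h12' : (m b : ℝ) ≤ 24 * m a := by exact_mod_cast h12
  have h4 : ∑ k ∈ Ico a b, t k ≤ 23 / (2 ^ 20 * 8 ^ r) := by
    rw [le_div_iff₀ (by positivity)]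
    refine le_of_mul_le_mul_right ?_ hma
    rw [mul_assoc]
    linarith
  have h5 := t1 b
  have e1 : (23 : ℝ) / (2 ^ 20 * 8 ^ r) = 23 / 2 ^ 20 * (1 / 8 ^ r) := by field_simp
  have e2 : (1 : ℝ) / (2 ^ 24 * 8 ^ r) = 1 / 2 ^ 24 * (1 / 8 ^ r) := by field_simp
  have e3 : (1 : ℝ) / (2 ^ 15 * 8 ^ r) = 1 / 2 ^ 15 * (1 / 8 ^ r) := by field_simp
  have e4 : (0 : ℝ) < 1 / 8 ^ r := by positivity
  rw [e1] at h4
  rw [e2] at h5
  rw [e3]
  generalize (1 : ℝ) / 8 ^ r = u at h4 h5 e4 ⊢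
  linarith

theorem core_tree2 (r : ℕ) (hr : 3 ≤ r) (κ ζ : ℝ) (hκ : 1 ≤ κ) (hZ : BadK κ ζ) (m : ℕ → ℕ)
    (t Q : ℕ → ℝ) (hm : StrictMono m) (hm0 : 3 * κ ≤ 2 ^ m 0) (hQ1 : ∀ k, 2 ^ m k ≤ Q k)
    (hQ2 : ∀ k, Q k ≤ 3 * κ * 2 ^ m k) (hL : ∀ k, LevOK ζ (Q k)) (t0 : ∀ k, 0 < t k)
    (t1 : ∀ k, t k ≤ 1 / (2 ^ 24 * 8 ^ r)) (hE : ∀ k, 2 ^ 33 * t k ^ 20 * κ < 1)
    (hQ : ∀ k, 1 ≤ t k ^ 20 * 2 ^ m k)
    (hs : ∀ k, m k + 2 ^ 20 * 8 ^ r * t k * m k ≤ m (k + 1)) :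
    ∃ G, Branch (64 ^ r) (64 ^ r / 4) G ∧ ∀ ξ ∈ Lim (64 ^ r) G,
      (∃ κ' : ℝ, BadK κ' ξ) ∧ ∀ k, t k ^ 12 ≤ Q k * mmin ξ ζ (Q k) := by
  classical
  have h8 : (1 : ℝ) ≤ 8 ^ r := one_le_pow₀ (by norm_num)
  have hl1 : ∀ k, 1 ≤ Q k := fun k => (one_le_pow₀ (by norm_num)).trans (hQ1 k)
  let P : ℕ → ℕ → Prop := fun n k => 64 ^ n ≤ Q k ^ 3 ∧ Q k ≤ (64 ^ n) ^ 4
  have key := fun n => coreB_act r κ hκ m t Q hm hm0 hQ1 hQ2 t0 t1 hs n
    ((range ((64 ^ n) ^ 4 + 1)).filter (P n)) fun k hk => (mem_filter.1 hk).2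
  let S : Setup :=
    { ζ := ζ, κ := κ, Q := Q, t := t
      act := fun n => (range ((64 ^ n) ^ 4 + 1)).filter (P n)
      hZ2 := hZ
      hZ1 := hL
      t0 := t0
      t1 := fun k => (t1 k).trans (one_div_le_one_div_of_le (by positivity)
        (le_mul_of_one_le_right (by positivity) h8))
      hE := hE
      hQ := fun k => (hQ k).trans (mul_le_mul_of_nonneg_left (hQ1 k) (by have := t0 k; positivity))
      hact := fun n k h1 h2 => by
        refine mem_filter.2 ⟨mem_range.2 (Nat.lt_succ_of_le ?_), h1, h2⟩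
        have h3 : k ≤ 2 ^ m k := (hm.id_le k).trans Nat.lt_two_pow_self.le
        have h4 : (k : ℝ) ≤ 2 ^ m k := by exact_mod_cast h3
        have := (h4.trans (hQ1 k)).trans h2
        exact_mod_cast this
      hsum := fun n => (key n).trans (one_div_le_one_div_of_le (by norm_num) (by nlinarith)) }
  obtain ⟨G, hG, hξ⟩ := coreB_setup S r hr key
  refine ⟨G, hG, fun ξ hx => ⟨(hξ ξ hx).1, fun k => ?_⟩⟩
  have h0 : 0 < Q k := lt_of_lt_of_le one_pos (hl1 k)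
  rw [← div_le_iff₀' h0]
  refine le_mmin _ _ (hl1 k) fun q hq hqQ => ?_
  rw [div_le_iff₀' h0]
  have := (hξ ξ hx).2 k q (round ((q : ℝ) * ξ)) (round ((q : ℝ) * ζ)) (by exact_mod_cast hq)
    (by exact_mod_cast hqQ) (by
      have := abs_sub_round ((q : ℝ) * ζ)
      push_cast; linarith)
  simpa using this

end Pool.Agent.Lib.MP_e56372_nt.Fd
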