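import Pool.Agent.Lib.MP_e56372_nt.Main

set_option autoImplicit false

namespace Pool.Agent.Lib.MP_e56372_nt.Fd

/-- a tree of intervals `[x, x + 1/B^n]` with `b` separated children at every node. -/
def Branch (B b : ℕ) (G : ℕ → ℝ → Prop) : Prop :=
  G 0 0 ∧ ∀ (n : ℕ) (x : ℝ), G n x → ∃ S : Finset ℕ, b ≤ S.card ∧
    ∀ a ∈ S, 2 * a < B ∧ G (n + 1) (x + 2 * a / (B : ℝ) ^ (n + 1))

/-- the points lying in an interval of the tree at every level. -/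
def Lim (B : ℕ) (G : ℕ → ℝ → Prop) : Set ℝ :=
  {ξ | ∀ n : ℕ, ∃ x : ℝ, G n x ∧ x ≤ ξ ∧ ξ ≤ x + 1 / (B : ℝ) ^ n}

/-- badly approximable with constant `1/κ`. -/
def BadK (κ ζ : ℝ) : Prop := ∀ b e : ℤ, b ≠ 0 → 1 ≤ κ * |(b : ℝ)| * |b * ζ + e|

/-- a level just below a best approximation denominator. -/
def LevOK (ζ Q : ℝ) : Prop := ∀ b e : ℤ, b ≠ 0 → |(b : ℝ)| ≤ Q → 1 ≤ 2 * Q * |b * ζ + e|

end Pool.Agent.Lib.MP_e56372_nt.Fd
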