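import Pool.Agent.Lib.MP_e56372_nt.Fd.Defs

set_option autoImplicit false

namespace Pool.Agent.Lib.MP_e56372_nt.Fd

/-- near every level there is a denominator `q` with `q ‖qζ‖ ≤ 2c`. -/
def Dip (c D ζ : ℝ) : Prop :=
  ∀ N : ℝ, D ≤ N → ∃ (q : ℕ) (p : ℤ), 0 < q ∧ N ≤ D * q ∧ (q : ℝ) ≤ N ∧ q * |q * ζ - p| ≤ 2 * c

/-- the interval of depth `n` is far from the rationals of small height. -/
def G0 (B : ℕ) (c : ℝ) (n : ℕ) (x : ℝ) : Prop :=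
  ∀ q p : ℤ, 0 < q → 4 * (q : ℝ) ^ 2 * B < (B : ℝ) ^ n → ∀ y : ℝ, x ≤ y → y ≤ x + 1 / (B : ℝ) ^ n →
    c ≤ q * |q * y - p|

end Pool.Agent.Lib.MP_e56372_nt.Fd
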