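import Pool.Agent.Lib.MP_e56372_nt.Fd.Defs2

set_option autoImplicit false
open Finset Filter Topology
open scoped NNReal ENNReal

namespace Pool.Agent.Lib.MP_e56372_nt.Fd
open Pool.Agent.Lib.MP_e56372_nt

lemma force_rat (B : ℕ) (hB : 16 ≤ B) (c : ℝ) (hc0 : 0 < c) (hc : 512 * (B : ℝ) ^ 2 * c ≤ 1)
    (n : ℕ) (x : ℝ) (h : G0 B c n x) : ∃ r : ℚ, 8 * c * (B : ℝ) ^ n ≤ (r.den : ℝ) ^ 2 ∧
      c * (r.den : ℝ) ^ 2 ≤ 32 * (B : ℝ) ^ n ∧
      |x + 1 / (2 * (B : ℝ) ^ n) - r| ≤ 1 / (4 * (B : ℝ) ^ n) := by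
  classical
  have hB1 : (16 : ℝ) ≤ B := by exact_mod_cast hB
  have hP : (1 : ℝ) ≤ (B : ℝ) ^ n := one_le_pow₀ (by linarith)
  have hBc : 32 * (B : ℝ) * c ≤ 1 := by
    have : 0 ≤ (B : ℝ) * c := by positivity
    nlinarith
  have hc1 : c ≤ 1 := by nlinarith
  set P := (B : ℝ) ^ n with hPd
  have hex : ∃ N : ℕ, 8 * P ≤ c * (N : ℝ) ^ 2 := by
    obtain ⟨N, hN⟩ := exists_nat_ge (max 1 (8 * P / c))
    have h1 : (1 : ℝ) ≤ N := (le_max_left _ _).trans hN
    have h2 : 8 * P / c ≤ N := (le_max_right _ _).trans hN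
    rw [div_le_iff₀ hc0] at h2
    refine ⟨N, h2.trans ?_⟩
    have : (N : ℝ) ≤ (N : ℝ) ^ 2 := by nlinarith
    nlinarith
  have hN1 := Nat.find_spec hex
  have h0 : Nat.find hex ≠ 0 := by
    intro h0
    rw [h0] at hN1
    norm_num at hN1
    linarith
  obtain ⟨M, hM⟩ := Nat.exists_eq_succ_of_ne_zero h0
  have hN2 := not_le.1 (Nat.find_min hex (m := M) (by omega))
  have hNM : ((Nat.find hex : ℕ) : ℝ) = M + 1 := by rw [hM]; push_cast; rfl
  have hN3 : c * ((Nat.find hex : ℕ) : ℝ) ^ 2 ≤ 32 * P := by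
    rw [hNM]
    rcases Nat.eq_zero_or_pos M with h1 | h1
    · rw [h1]; norm_num; linarith
    · have h2 : (1 : ℝ) ≤ M := by exact_mod_cast h1
      have h3 : ((M : ℝ) + 1) ^ 2 ≤ 4 * (M : ℝ) ^ 2 := by nlinarith
      nlinarith
  obtain ⟨r, hr1, hr2⟩ := Real.exists_rat_abs_sub_le_and_den_le (x + 1 / (2 * P))
    (Nat.pos_of_ne_zero h0)
  set N : ℝ := ((Nat.find hex : ℕ) : ℝ) with hNd
  have hq : (1 : ℝ) ≤ r.den := by exact_mod_cast r.den_pos
  have hqN : (r.den : ℝ) ≤ N := by rw [hNd]; exact_mod_cast hr2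
  have key : 8 * c * P ≤ (r.den : ℝ) ^ 2 ∧ 4 * P ≤ r.den * N := by
    by_cases h1 : 4 * (r.den : ℝ) ^ 2 * B < P
    · have h2 := h r.den r.num (by exact_mod_cast r.den_pos) (by simpa using h1)
        (x + 1 / (2 * P)) (by have : 0 < 1 / (2 * P) := by positivity
                              linarith)
        (by have : 1 / (2 * P) ≤ 1 / P := one_div_le_one_div_of_le (by linarith) (by linarith)
            linarith)
      have e : ((r.den : ℤ) : ℝ) * (x + 1 / (2 * P)) - r.num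
          = r.den * (x + 1 / (2 * P) - r) := by
        rw [Rat.cast_def r]; push_cast; field_simp
      rw [e, abs_mul] at h2
      push_cast at h2
      rw [Nat.abs_cast] at h2
      rw [le_div_iff₀ (by positivity)] at hr1
      have h3 : c * (N + 1) ≤ r.den := by
        have : c * (N + 1) ≤ r.den * (r.den * |x + 1 / (2 * P) - r|) * (N + 1) := by
          gcongr
        nlinarith
      have h4 : c * N ≤ r.den := by nlinarith
      have h5 : (c * N) ^ 2 ≤ (r.den : ℝ) ^ 2 := pow_le_pow_left₀ (by positivity) h4 2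
      constructor
      · nlinarith
      · nlinarith
    · have h2 := not_lt.1 h1
      have h3 : 8 * c * P ≤ (r.den : ℝ) ^ 2 := by
        have : 8 * c * P ≤ 8 * c * (4 * (r.den : ℝ) ^ 2 * B) := by gcongr
        nlinarith
      refine ⟨h3, (pow_le_pow_iff_left₀ (by positivity) (by positivity) two_ne_zero).1 ?_⟩
      have h4 : P * (8 * P) ≤ (4 * (r.den : ℝ) ^ 2 * B) * (c * N ^ 2) := by gcongr
      have h5 : 0 ≤ (r.den : ℝ) ^ 2 * N ^ 2 := by positivity
      nlinarith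
  refine ⟨r, key.1, ?_, hr1.trans (one_div_le_one_div_of_le (by positivity) (by nlinarith))⟩
  refine le_trans ?_ hN3
  gcongr

theorem g0_force (B : ℕ) (hB : 16 ≤ B) (c : ℝ) (hc0 : 0 < c) (hc : 512 * (B : ℝ) ^ 2 * c ≤ 1) (n : ℕ)
    (x : ℝ) (h : G0 B c n x) : ∃ j a : ℕ, (B : ℝ) ^ j * c ^ 2 ≤ 64 * B ∧ a < B ^ j ∧
      G0 B c (n + j) (x + a / (B : ℝ) ^ (n + j)) ∧ ∃ (q : ℕ) (p : ℤ), 0 < q ∧
        c * (B : ℝ) ^ n ≤ (q : ℝ) ^ 2 ∧ c * (q : ℝ) ^ 2 ≤ 32 * (B : ℝ) ^ n ∧
        ∀ y : ℝ, x + a / (B : ℝ) ^ (n + j) ≤ y → y ≤ x + (a + 1) / (B : ℝ) ^ (n + j) →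
          q * |q * y - p| ≤ 2 * c := by
  classical
  obtain ⟨r, r1, r2, r3⟩ := force_rat B hB c hc0 hc n x h
  have hB1 : (16 : ℝ) ≤ B := by exact_mod_cast hB
  have hP : (1 : ℝ) ≤ (B : ℝ) ^ n := one_le_pow₀ (by linarith)
  have hBc : 512 * (B : ℝ) * c ≤ 1 := by
    have : 0 ≤ (B : ℝ) * c := by positivity
    nlinarith
  have hc1 : 8 * c ≤ 1 := by nlinarith
  have hq : (1 : ℝ) ≤ r.den := by exact_mod_cast r.den_pos
  have hqe : ∀ y : ℝ, (r.den : ℝ) * y - r.num = r.den * (y - r) := fun y => by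
    rw [Rat.cast_def r]; field_simp
  set P := (B : ℝ) ^ n with hPd
  set q : ℝ := (r.den : ℝ) with hqd
  have hex : ∃ j : ℕ, 2 * q ^ 2 ≤ c * P * (B : ℝ) ^ j := by
    obtain ⟨j, hj⟩ := pow_unbounded_of_one_lt (2 * q ^ 2 / (c * P)) (by linarith : (1 : ℝ) < B)
    rw [div_lt_iff₀ (by positivity)] at hj
    exact ⟨j, by linarith⟩
  have j1 := Nat.find_spec hex
  have h0 : Nat.find hex ≠ 0 := by
    intro h0
    rw [h0, pow_zero] at j1
    have : 0 < c * P := by positivity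
    linarith
  obtain ⟨i, hi⟩ := Nat.exists_eq_succ_of_ne_zero h0
  have j2 : c * P * (B : ℝ) ^ Nat.find hex ≤ 2 * B * q ^ 2 := by
    have := not_le.1 (Nat.find_min hex (m := i) (by omega))
    rw [hi, pow_succ]
    nlinarith
  set j := Nat.find hex with hj
  have hM : (B : ℝ) ^ (n + j) = P * (B : ℝ) ^ j := pow_add _ _ _
  have hJ : (0 : ℝ) < (B : ℝ) ^ j := by positivity
  set J := (B : ℝ) ^ j with hJd
  have hM0 : 0 < P * J := by positivity
  set s := c / q ^ 2 with hs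
  have hs0 : 0 < s := by positivity
  have hsq : q ^ 2 * s = c := by rw [hs]; field_simp
  set u := 1 / P with hu
  have hu0 : 0 < u := by positivity
  have s1 : s ≤ u / 8 := by
    rw [hs, hu, div_div, div_le_div_iff₀ (by positivity) (by positivity)]; linarith
  have s2 : 2 / (P * J) ≤ s := by
    rw [hs, div_le_div_iff₀ (by positivity) (by positivity)]; linarith
  have e2 : 1 / (2 * P) = u / 2 := by rw [hu]; field_simp
  have e4 : 1 / (4 * P) = u / 4 := by rw [hu]; field_simp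
  rw [e2, e4, abs_le] at r3
  have z0 : 0 ≤ (r + s - x) * (P * J) := mul_nonneg (by linarith [r3.2]) hM0.le
  set a := ⌈(r + s - x) * (P * J)⌉₊ with ha
  have a1 : r + s ≤ x + a / (P * J) := by
    have := Nat.le_ceil ((r + s - x) * (P * J))
    rw [← le_div_iff₀ hM0] at this
    linarith
  have a2 : x + (a + 1) / (P * J) ≤ r + 2 * s := by
    have h1 := (Nat.ceil_lt_add_one z0).le
    have h2 : ((a : ℝ) + 1) / (P * J) ≤ (r + s - x) + 2 / (P * J) := by
      rw [div_le_iff₀ hM0, add_mul, div_mul_cancel₀ _ hM0.ne']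
      linarith
    linarith
  have dip : ∀ y : ℝ, x + a / (P * J) ≤ y → y ≤ x + (a + 1) / (P * J) →
      q * |q * y - r.num| ≤ 2 * c := fun y y1 y2 => by
    rw [hqe, abs_of_nonneg (mul_nonneg (by linarith) (by linarith))]
    have : q ^ 2 * (y - r) ≤ q ^ 2 * (2 * s) := by gcongr; linarith
    nlinarith
  refine ⟨j, a, ?_, ?_, ?_, r.den, r.num, r.den_pos, ?_, r2, ?_⟩
  · have h1 : c * (c * P * J) ≤ c * (2 * B * q ^ 2) := by gcongr
    have h2 : (B : ℝ) * (c * q ^ 2) ≤ B * (32 * P) := by gcongr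
    refine le_of_mul_le_mul_left ?_ (by linarith : 0 < P)
    nlinarith
  · have h1 : ((a : ℝ) + 1) / (P * J) ≤ 1 / P := by rw [← hu]; linarith [r3.1]
    rw [div_le_div_iff₀ hM0 (by linarith)] at h1
    have h2 : (a : ℝ) + 1 ≤ J := le_of_mul_le_mul_left (by linarith) (by linarith : 0 < P)
    rw [hJd] at h2
    exact_mod_cast h2
  · intro q' p' hq' h4 y y1 y2
    rw [hM] at h4 y1 y2
    have y3 : y ≤ x + (a + 1) / (P * J) := by rw [add_div]; linarith
    have hq1 : (1 : ℝ) ≤ q' := by exact_mod_cast hq'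
    have b1 : 2 * c * (q' : ℝ) ^ 2 ≤ q ^ 2 := by
      have h1 : c * (4 * (q' : ℝ) ^ 2 * B) ≤ c * (P * J) := by gcongr
      refine le_of_mul_le_mul_left ?_ (by linarith : (0 : ℝ) < 2 * B)
      nlinarith
    by_cases h5 : p' * r.den = r.num * q'
    · have h6 : (r.den : ℤ) ≤ q' := Int.le_of_dvd hq'
        ((Rat.isCoprime_num_den r).symm.dvd_of_dvd_mul_left ⟨p', by rw [← h5]; ring⟩)
      have h7 : q ≤ q' := by rw [hqd]; exact_mod_cast h6
      have h8 : (p' : ℝ) * q = r.num * q' := by rw [hqd]; exact_mod_cast h5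
      have h9 : (q' : ℝ) * y - p' = q' * (y - r) := by
        have := hqe y
        refine mul_left_cancel₀ (by linarith : q ≠ 0) ?_
        linear_combination q' * this - h8
      rw [h9, abs_of_nonneg (mul_nonneg (by linarith) (by linarith))]
      have : q ^ 2 * s ≤ (q' : ℝ) ^ 2 * (y - r) := by gcongr; linarith
      nlinarith
    · by_cases h6 : (q' : ℝ) < 2 * c * q
      · refine h q' p' hq' ?_ y (by linarith [r3.2]) (by rw [← hPd, ← hu]; linarith [r3.1])
        have h7 : (q' : ℝ) ^ 2 < (2 * c * q) ^ 2 := by gcongr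
        have h8 : 4 * (q' : ℝ) ^ 2 * B < 4 * (2 * c * q) ^ 2 * B := by gcongr
        have h9 : (B : ℝ) * c * (c * q ^ 2) ≤ B * c * (32 * P) := by gcongr
        rw [← hPd]
        nlinarith
      · have h7 : (1 : ℝ) ≤ |((r.num * q' - p' * r.den : ℤ) : ℝ)| := by
          exact_mod_cast Int.one_le_abs (sub_ne_zero.2 (Ne.symm h5))
        have h8 : ((r.num * q' - p' * r.den : ℤ) : ℝ)
            = q * (q' * y - p') - q' * (q * y - r.num) := by
          rw [hqd]; push_cast; ring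
        rw [h8] at h7
        have h9 := abs_sub (q * (q' * y - p')) (q' * (q * y - r.num))
        rw [abs_mul, abs_mul, abs_of_pos (by linarith : 0 < q),
          abs_of_pos (by linarith : (0 : ℝ) < q')] at h9
        have b2 : 4 * c * q' ≤ q := by
          refine (pow_le_pow_iff_left₀ (by positivity) (by positivity) two_ne_zero).1 ?_
          have : 8 * c * (2 * c * (q' : ℝ) ^ 2) ≤ 1 * q ^ 2 := by gcongr
          nlinarith
        have b3 := dip y y1 y3
        have b4 : q' * |q * y - r.num| ≤ 1 / 2 := by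
          refine le_of_mul_le_mul_left ?_ (by linarith : 0 < q)
          have : q' * (q * |q * y - r.num|) ≤ q' * (2 * c) := by gcongr
          nlinarith
        have b5 : 2 * c * q * |q' * y - p'| ≤ q' * |q' * y - p'| := by
          gcongr; exact not_lt.1 h6
        nlinarith
  · have : 0 < c * P := by positivity
    linarith
  · rw [hM]; exact dip

end Pool.Agent.Lib.MP_e56372_nt.Fd
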