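import Pool.Agent.Lib.MP_e56372_nt.Fd.Defs2

set_option autoImplicit false
open Finset Filter Topology
open scoped NNReal ENNReal

namespace Pool.Agent.Lib.MP_e56372_nt.Fd
open Pool.Agent.Lib.MP_e56372_nt

/-- the interval of level `n` at `x` is far from all rationals of small height -/
def free_G (B : ℕ) (n : ℕ) (x : ℝ) : Prop :=
  ∀ b e : ℤ, b ≠ 0 → 4 * (b : ℝ) ^ 2 * B < (B : ℝ) ^ n → ∀ y : ℝ, x ≤ y → y ≤ x + 1 / (B : ℝ) ^ n →
    |(b : ℝ)| * (1 / (B : ℝ) ^ n) ≤ |b * y + e|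

theorem free_sep {b e b' e' : ℤ} {y y' h P : ℝ} (hb : b ≠ 0) (hb' : b' ≠ 0) (hh : 0 < h)
    (hP : 2 ≤ P) (h1 : 4 * (b : ℝ) ^ 2 * P * h < 1) (h2 : 4 * (b' : ℝ) ^ 2 * P * h < 1)
    (h3 : |b * y + e| < |(b : ℝ)| * h) (h4 : |b' * y' + e'| < |(b' : ℝ)| * h)
    (h5 : |y' - y| ≤ P * h) : |y' - y| < 2 * h := by
  have p1 : 0 < |(b : ℝ)| := abs_pos.2 (by exact_mod_cast hb)
  have p2 : 0 < |(b' : ℝ)| := abs_pos.2 (by exact_mod_cast hb')
  have p3 := mul_pos p1 p2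
  have k1 : |((b * e' - b' * e : ℤ) : ℝ) + b * b' * (y' - y)| < |(b : ℝ)| * |(b' : ℝ)| * (2 * h) := by
    have e1 : ((b * e' - b' * e : ℤ) : ℝ) + b * b' * (y' - y) =
        b * (b' * y' + e') - b' * (b * y + e) := by push_cast; ring
    rw [e1]
    refine (abs_sub _ _).trans_lt ?_
    rw [abs_mul, abs_mul]
    have a1 := mul_lt_mul_of_pos_left h4 p1
    have a2 := mul_lt_mul_of_pos_left h3 p2
    linarith
  have k2 : |(b : ℝ) * b' * (y' - y)| = |(b : ℝ)| * |(b' : ℝ)| * |y' - y| := by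
    rw [abs_mul, abs_mul]
  have k3 : 4 * (|(b : ℝ)| * |(b' : ℝ)|) * (P * h) < 1 := by
    rw [← sq_abs] at h1 h2
    have hp : 0 < P * h := by positivity
    nlinarith [mul_nonneg hp.le (sq_nonneg (|(b : ℝ)| - |(b' : ℝ)|))]
  have k4 : |((b * e' - b' * e : ℤ) : ℝ)| < 1 := by
    have a1 := abs_sub (((b * e' - b' * e : ℤ) : ℝ) + b * b' * (y' - y)) (b * b' * (y' - y))
    rw [add_sub_cancel_right, k2] at a1
    have a2 := mul_le_mul_of_nonneg_left h5 p3.le
    have a3 : |(b : ℝ)| * |(b' : ℝ)| * (2 * h) ≤ |(b : ℝ)| * |(b' : ℝ)| * (P * h) :=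
      mul_le_mul_of_nonneg_left (mul_le_mul_of_nonneg_right hP hh.le) p3.le
    have a4 : 0 < |(b : ℝ)| * |(b' : ℝ)| * (P * h) := by positivity
    linarith
  have k5 : b * e' - b' * e = 0 := Int.abs_lt_one_iff.1 (by exact_mod_cast k4)
  rw [k5, Int.cast_zero, zero_add, k2] at k1
  exact lt_of_mul_lt_mul_left k1 p3.le

theorem free_near {B n a a' : ℕ} {x : ℝ} (hB : 16 ≤ B) (ha : a < B / 2) (ha' : a' < B / 2)
    (h : ¬ free_G B (n + 1) (x + 2 * a / (B : ℝ) ^ (n + 1)))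
    (h' : ¬ free_G B (n + 1) (x + 2 * a' / (B : ℝ) ^ (n + 1))) : a' ≤ a + 1 := by
  unfold free_G at h h'
  push Not at h h'
  obtain ⟨b, e, hb, h1, y, y1, y2, h3⟩ := h
  obtain ⟨b', e', hb', h2, y', y3, y4, h4⟩ := h'
  have hB' : (16 : ℝ) ≤ B := by exact_mod_cast hB
  have hp : (0 : ℝ) < (B : ℝ) ^ (n + 1) := by positivity
  rw [div_eq_mul_one_div] at y1 y2 y3 y4
  obtain ⟨h, hh⟩ : ∃ h : ℝ, h = 1 / (B : ℝ) ^ (n + 1) := ⟨_, rfl⟩
  have h0 : 0 < h := by rw [hh]; positivity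
  have g1 : 4 * (b : ℝ) ^ 2 * B * h < 1 := by rw [hh, mul_one_div, div_lt_one hp]; exact h1
  have g2 : 4 * (b' : ℝ) ^ 2 * B * h < 1 := by rw [hh, mul_one_div, div_lt_one hp]; exact h2
  rw [← hh] at y1 y2 y3 y4 h3 h4
  have a1 : (2 * a + 1 : ℝ) ≤ B := by exact_mod_cast (show 2 * a + 1 ≤ B by omega)
  have a2 : (2 * a' + 1 : ℝ) ≤ B := by exact_mod_cast (show 2 * a' + 1 ≤ B by omega)
  have a3 : (0 : ℝ) ≤ a := Nat.cast_nonneg _
  have a4 : (0 : ℝ) ≤ a' := Nat.cast_nonneg _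
  have a5 := mul_le_mul_of_nonneg_right a1 h0.le
  have a6 := mul_le_mul_of_nonneg_right a2 h0.le
  have a7 := mul_nonneg a3 h0.le
  have a8 := mul_nonneg a4 h0.le
  have k := free_sep hb hb' h0 (by linarith) g1 g2 h3 h4 (abs_le.2 ⟨by linarith, by linarith⟩)
  have k2 := (abs_lt.1 k).2
  by_contra hn
  have a9 : (a + 2 : ℝ) ≤ a' := by exact_mod_cast (show a + 2 ≤ a' by omega)
  have := mul_le_mul_of_nonneg_right a9 h0.le
  linarith

theorem free_one {B : ℕ} (hB : 16 ≤ B) {c : ℝ} (hc : 4 * (B : ℝ) ^ 2 * c ≤ 1) (n : ℕ) (x : ℝ)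
    (h : G0 B c n x) : ∃ S : Finset ℕ, B / 4 ≤ S.card ∧
      ∀ a ∈ S, a < B / 2 ∧ G0 B c (n + 1) (x + 2 * a / (B : ℝ) ^ (n + 1)) := by
  classical
  have hB' : (16 : ℝ) ≤ B := by exact_mod_cast hB
  refine ⟨(range (B / 2)).filter fun a => free_G B (n + 1) (x + 2 * a / (B : ℝ) ^ (n + 1)), ?_,
    fun a ha => ⟨mem_range.1 (mem_filter.1 ha).1, ?_⟩⟩
  · have h1 := card_filter_add_card_filter_not (s := range (B / 2))
      fun a : ℕ => free_G B (n + 1) (x + 2 * a / (B : ℝ) ^ (n + 1))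
    have h2 : ((range (B / 2)).filter
        fun a : ℕ => ¬ free_G B (n + 1) (x + 2 * a / (B : ℝ) ^ (n + 1))).card ≤ 3 := by
      rcases ((range (B / 2)).filter fun a : ℕ =>
        ¬ free_G B (n + 1) (x + 2 * a / (B : ℝ) ^ (n + 1))).eq_empty_or_nonempty with h | ⟨a, ha⟩
      · rw [h]; simp
      · refine (card_le_card (t := Icc (a - 1) (a + 1)) fun a' ha' => ?_).trans ?_
        · obtain ⟨u1, u2⟩ := mem_filter.1 ha
          obtain ⟨u3, u4⟩ := mem_filter.1 ha'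
          have v1 := free_near hB (mem_range.1 u1) (mem_range.1 u3) u2 u4
          have v2 := free_near hB (mem_range.1 u3) (mem_range.1 u1) u4 u2
          exact mem_Icc.2 ⟨by omega, v1⟩
        · rw [Nat.card_Icc]; omega
    rw [card_range] at h1
    omega
  · obtain ⟨u1, u2⟩ := mem_filter.1 ha
    have u3 := mem_range.1 u1
    intro q p hq h1 y y1 y2
    have hq' : (0 : ℝ) < q := by exact_mod_cast hq
    have hp : (0 : ℝ) < (B : ℝ) ^ n := by positivity
    have hp1 : (0 : ℝ) < (B : ℝ) ^ (n + 1) := by positivity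
    by_cases h2 : 4 * (q : ℝ) ^ 2 * B < (B : ℝ) ^ n
    · refine h q p hq h2 y (le_trans (le_add_of_nonneg_right (by positivity)) y1) (y2.trans ?_)
      have a1 : (2 * a + 1 : ℝ) ≤ B := by exact_mod_cast (show 2 * a + 1 ≤ B by omega)
      rw [add_assoc, ← add_div, add_le_add_iff_left, div_le_div_iff₀ hp1 hp, pow_succ]
      nlinarith [mul_le_mul_of_nonneg_right a1 hp.le]
    · have h3 := u2 q (-p) hq.ne' h1 y y1 y2
      rw [abs_of_pos hq', Int.cast_neg, ← sub_eq_add_neg] at h3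
      refine le_trans ?_ (mul_le_mul_of_nonneg_left h3 hq'.le)
      rw [← mul_assoc, mul_one_div, le_div_iff₀ hp1, pow_succ]
      rcases le_total c 0 with h0 | h0
      · have : c * ((B : ℝ) ^ n * B) ≤ 0 := mul_nonpos_of_nonpos_of_nonneg h0 (by positivity)
        nlinarith [mul_pos hq' hq']
      · have a1 := mul_le_mul_of_nonneg_right (not_lt.1 h2) (show 0 ≤ c * B by positivity)
        have a2 := mul_le_mul_of_nonneg_right hc (show 0 ≤ (q : ℝ) ^ 2 by positivity)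
        nlinarith

theorem g0_free (B : ℕ) (hB : 16 ≤ B) (hev : Even B) (c : ℝ) (hc : 4 * (B : ℝ) ^ 2 * c ≤ 1) (d n : ℕ)
    (hd : 1 ≤ d) (x : ℝ) (h : G0 B c n x) : ∃ S : Finset ℕ, (B / 4) ^ d ≤ S.card ∧
      ∀ a ∈ S, 2 * a < B ^ d ∧ G0 B c (n + d) (x + 2 * a / (B : ℝ) ^ (n + d)) := by
  classical
  induction d, hd using Nat.le_induction with
  | base =>
    obtain ⟨S, h1, h2⟩ := free_one hB hc n x h
    refine ⟨S, by simpa using h1, fun a ha => ⟨?_, (h2 a ha).2⟩⟩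
    have := (h2 a ha).1
    rw [pow_one]; omega
  | succ d hd ih =>
    obtain ⟨S, h1, h2⟩ := ih
    have hB0 : (B : ℝ) ≠ 0 := by exact_mod_cast (show B ≠ 0 by omega)
    choose! T hT using fun a (ha : a ∈ S) => free_one hB hc (n + d) _ (h2 a ha).2
    refine ⟨(S.sigma T).image fun z => z.1 * B + z.2, ?_, fun a ha => ?_⟩
    · rw [card_image_of_injOn, card_sigma, pow_succ]
      · refine (Nat.mul_le_mul_right _ h1).trans ?_
        rw [← smul_eq_mul]
        exact card_nsmul_le_sum _ _ _ fun a ha => (hT a ha).1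
      · rintro ⟨a, b⟩ hz ⟨a', b'⟩ hz' (e : a * B + b = a' * B + b')
        have z1 := mem_sigma.1 (mem_coe.1 hz)
        have z2 := mem_sigma.1 (mem_coe.1 hz')
        have l1 : b < B := by have := ((hT a z1.1).2 b z1.2).1; omega
        have l2 : b' < B := by have := ((hT a' z2.1).2 b' z2.2).1; omega
        have e1 : b = b' := by
          have := congrArg (· % B) e
          simpa [Nat.mul_add_mod', Nat.mod_eq_of_lt l1, Nat.mod_eq_of_lt l2] using this
        subst e1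
        have e2 : a = a' := Nat.eq_of_mul_eq_mul_right (show 0 < B by omega) (by omega)
        subst e2
        rfl
    · obtain ⟨⟨a', b⟩, hz, rfl⟩ := mem_image.1 ha
      have z1 := mem_sigma.1 hz
      obtain ⟨l1, l2⟩ := (hT a' z1.1).2 b z1.2
      have l3 := (h2 a' z1.1).1
      refine ⟨?_, ?_⟩
      · have l4 := Nat.mul_le_mul_right B (show 2 * a' + 1 ≤ B ^ d from l3)
        have l5 : 2 * b < B := by have : b < B / 2 := l1; omega
        show 2 * (a' * B + b) < B ^ (d + 1)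
        rw [pow_succ]
        nlinarith
      · have e : x + 2 * ((a' * B + b : ℕ) : ℝ) / (B : ℝ) ^ (n + (d + 1)) =
            x + 2 * a' / (B : ℝ) ^ (n + d) + 2 * b / (B : ℝ) ^ (n + d + 1) := by
          rw [← add_assoc n d 1, pow_succ]; push_cast; field_simp; ring
        show G0 B c (n + (d + 1)) (x + 2 * ((a' * B + b : ℕ) : ℝ) / (B : ℝ) ^ (n + (d + 1)))
        rw [e]
        exact l2

end Pool.Agent.Lib.MP_e56372_nt.Fd
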