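import Pool.Agent.Lib.MP_e56372_nt.Fd.Defs2
import Pool.Agent.Lib.MP_e56372_nt.Fd.Free
import Pool.Agent.Lib.MP_e56372_nt.Fd.Force

set_option autoImplicit false
open Finset Filter Topology
open scoped NNReal ENNReal

namespace Pool.Agent.Lib.MP_e56372_nt.Fd
open Pool.Agent.Lib.MP_e56372_nt

/-- the nodes of the tree with forced dips. -/
def dipG (B : ℕ) (c : ℝ) (R n : ℕ) (x : ℝ) : Prop :=
  G0 B c (R * n) x ∧ ∀ n' < n, ∃ (q : ℕ) (p : ℤ), 0 < q ∧ c * (B : ℝ) ^ (R * n') ≤ (q : ℝ) ^ 2 ∧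
    c * (q : ℝ) ^ 2 ≤ 32 * (B : ℝ) ^ (R * n') ∧
    ∀ y : ℝ, x ≤ y → y ≤ x + 1 / (B : ℝ) ^ (R * n) → q * |q * y - p| ≤ 2 * c

lemma dip_step (B : ℕ) (hB : 16 ≤ B) (hev : Even B) (c : ℝ) (hc0 : 0 < c)
    (hc : 512 * (B : ℝ) ^ 2 * c ≤ 1) (L R : ℕ) (hL : 64 * (B : ℝ) ≤ (B : ℝ) ^ L * c ^ 2)
    (hR : L < R) (n : ℕ) (x : ℝ) (h : dipG B c R n x) :
    ∃ S : Finset ℕ, (B / 4) ^ (R - L) ≤ S.card ∧ ∀ a ∈ S, 2 * a < B ^ R ∧
      dipG B c R (n + 1) (x + 2 * a / (B : ℝ) ^ (R * (n + 1))) := by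
  have hB1 : (16 : ℝ) ≤ B := by exact_mod_cast hB
  have hB0 : (0 : ℝ) < B := by linarith
  obtain ⟨j, a, hj, ha, hG, q, p, hq0, hq1, hq2, hq3⟩ := g0_force B hB c hc0 hc (R * n) x h.1
  have hjL : j ≤ L := by
    have h1 : (B : ℝ) ^ j ≤ (B : ℝ) ^ L :=
      le_of_mul_le_mul_right (hj.trans hL) (by positivity)
    exact (pow_le_pow_iff_right₀ (by linarith)).1 h1
  obtain ⟨d, hd⟩ : ∃ d, R = j + d := ⟨R - j, by omega⟩
  have hd1 : 1 ≤ d := by omega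
  have hc4 : 4 * (B : ℝ) ^ 2 * c ≤ 1 := by
    have : 0 ≤ (B : ℝ) ^ 2 * c := by positivity
    linarith
  obtain ⟨S, hS, hS'⟩ := g0_free B hB hev c hc4 d (R * n + j) hd1 _ hG
  obtain ⟨e, he⟩ : Even (B ^ d) := hev.pow_of_ne_zero (by omega)
  have heR : (B : ℝ) ^ d = 2 * e := by
    have : ((B ^ d : ℕ) : ℝ) = (e + e : ℕ) := by rw [he]
    push_cast at this; linarith
  have hN : R * (n + 1) = R * n + j + d := by rw [Nat.mul_succ]; omega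
  refine ⟨S.image fun b => a * e + b, ?_, fun b0 hb0 => ?_⟩
  · rw [card_image_of_injective _ (add_right_injective _)]
    exact (Nat.pow_le_pow_right (by omega) (by omega)).trans hS
  obtain ⟨b, hb, rfl⟩ := mem_image.1 hb0
  obtain ⟨hb1, hb2⟩ := hS' b hb
  have hP : (0 : ℝ) < (B : ℝ) ^ (R * n) := by positivity
  have hPj : (0 : ℝ) < (B : ℝ) ^ j := by positivity
  have hPd : (0 : ℝ) < (B : ℝ) ^ d := by positivity
  have hx : x + 2 * ((a * e + b : ℕ) : ℝ) / (B : ℝ) ^ (R * (n + 1))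
      = x + a / (B : ℝ) ^ (R * n + j) + 2 * b / (B : ℝ) ^ (R * n + j + d) := by
    rw [hN, pow_add _ (R * n + j) d]
    have : (2 : ℝ) * ((a * e + b : ℕ) : ℝ) = a * (B : ℝ) ^ d + 2 * b := by
      rw [heR]; push_cast; ring
    rw [this]
    field_simp
    ring
  have hb1' : 2 * (b : ℝ) + 1 ≤ (B : ℝ) ^ d := by exact_mod_cast hb1
  have ha' : (a : ℝ) + 1 ≤ (B : ℝ) ^ j := by exact_mod_cast ha
  have i1 : 2 * (b : ℝ) / (B : ℝ) ^ (R * n + j + d) + 1 / (B : ℝ) ^ (R * n + j + d)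
      ≤ 1 / (B : ℝ) ^ (R * n + j) := by
    rw [← add_div, pow_add _ (R * n + j) d, div_le_div_iff₀ (by positivity) (by positivity)]
    have : (0 : ℝ) < (B : ℝ) ^ (R * n + j) := by positivity
    nlinarith
  have i2 : ((a : ℝ) + 1) / (B : ℝ) ^ (R * n + j) ≤ 1 / (B : ℝ) ^ (R * n) := by
    rw [pow_add, div_le_div_iff₀ (by positivity) (by positivity)]
    nlinarith
  have i3 : (0 : ℝ) ≤ a / (B : ℝ) ^ (R * n + j) := by positivity
  have i4 : (0 : ℝ) ≤ 2 * b / (B : ℝ) ^ (R * n + j + d) := by positivity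
  rw [add_div] at i2
  refine ⟨?_, ?_, fun n' hn' => ?_⟩
  · have h1 : (a + 1) * B ^ d ≤ B ^ j * B ^ d := Nat.mul_le_mul_right _ ha
    rw [hd, pow_add]
    rw [he] at h1 hb1 ⊢
    nlinarith
  · rw [hx, hN]; exact hb2
  · rw [hx, hN]
    rcases Nat.lt_succ_iff_lt_or_eq.1 hn' with h1 | h1
    · obtain ⟨q', p', k0, k1, k2, k3⟩ := h.2 n' h1
      exact ⟨q', p', k0, k1, k2, fun y y1 y2 => k3 y (by linarith) (by linarith)⟩
    · subst h1
      exact ⟨q, p, hq0, hq1, hq2, fun y y1 y2 =>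
        hq3 y (by linarith) (by rw [add_div]; linarith)⟩

theorem dip_tree (B : ℕ) (hB : 16 ≤ B) (hev : Even B) (c : ℝ) (hc0 : 0 < c)
    (hc : 512 * (B : ℝ) ^ 2 * c ≤ 1) (L R : ℕ) (hL : 64 * (B : ℝ) ≤ (B : ℝ) ^ L * c ^ 2) (hR : L < R) :
    ∃ G, Branch (B ^ R) ((B / 4) ^ (R - L)) G ∧ ∀ ζ ∈ Lim (B ^ R) G,
      BadK (1 / c) ζ ∧ Dip c (6 * (B : ℝ) ^ R / c) ζ := by
  classical
  have hB1 : (16 : ℝ) ≤ B := by exact_mod_cast hB
  have hpw : ∀ n : ℕ, ((B ^ R : ℕ) : ℝ) ^ n = (B : ℝ) ^ (R * n) := fun n => by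
    push_cast; rw [pow_mul]
  have hBR : (1 : ℝ) < (B : ℝ) ^ R := one_lt_pow₀ (by linarith) (by omega)
  have hbig : ∀ A : ℝ, ∃ n : ℕ, A < (B : ℝ) ^ (R * n) := fun A => by
    obtain ⟨n, hn⟩ := pow_unbounded_of_one_lt A hBR
    exact ⟨n, by rwa [pow_mul]⟩
  have hc1 : c ≤ 1 := by nlinarith
  refine ⟨dipG B c R, ⟨⟨fun q p hq h4 => ?_, fun n' hn' => absurd hn' (Nat.not_lt_zero _)⟩,
    fun n x h => ?_⟩, fun ζ hζ => ⟨fun b e hb => ?_, fun N hN => ?_⟩⟩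
  · exfalso
    have h1 : (1 : ℝ) ≤ q := by exact_mod_cast hq
    simp only [mul_zero, pow_zero] at h4
    nlinarith
  · simp only [hpw]
    exact dip_step B hB hev c hc0 hc L R hL hR n x h
  · obtain ⟨n, hn⟩ := hbig (4 * (b : ℝ) ^ 2 * B)
    obtain ⟨x, hx, x1, x2⟩ := hζ n
    rw [hpw] at x2
    rw [mul_assoc, one_div, ← div_eq_inv_mul, le_div_iff₀ hc0, one_mul]
    rcases hb.lt_or_gt with h | h
    · have := hx.1 (-b) e (by omega) (by push_cast; rwa [neg_sq]) ζ x1 x2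
      have h1 : (b : ℝ) < 0 := by exact_mod_cast h
      rw [abs_of_neg h1, ← abs_neg ((b : ℝ) * ζ + e),
        show -((b : ℝ) * ζ + e) = -b * ζ - e by ring]
      exact_mod_cast this
    · have := hx.1 b (-e) h hn ζ x1 x2
      have h1 : (0 : ℝ) < b := by exact_mod_cast h
      rw [abs_of_pos h1]
      simpa using this
  · have hex : ∃ n : ℕ, c * N ^ 2 < 32 * (B : ℝ) ^ (R * n) := by
      obtain ⟨n, hn⟩ := hbig (c * N ^ 2 / 32)
      exact ⟨n, by linarith⟩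
    rw [div_le_iff₀ hc0] at hN
    have hN0 : 6 ≤ N := by nlinarith
    have h0 : Nat.find hex ≠ 0 := by
      intro h
      have := Nat.find_spec hex
      rw [h, mul_zero, pow_zero] at this
      nlinarith
    obtain ⟨n, hn⟩ := Nat.exists_eq_succ_of_ne_zero h0
    have h1 := Nat.find_spec hex
    have h2 := not_lt.1 (Nat.find_min hex (m := n) (by omega))
    rw [hn, Nat.mul_succ, pow_add] at h1
    obtain ⟨x, hx, x1, x2⟩ := hζ (n + 1)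
    rw [hpw] at x2
    obtain ⟨q, p, k0, k1, k2, k3⟩ := hx.2 n (Nat.lt_succ_self n)
    have hq : (0 : ℝ) < q := by exact_mod_cast k0
    refine ⟨q, p, k0, ?_, ?_, k3 ζ x1 x2⟩
    · rw [div_mul_eq_mul_div, le_div_iff₀ hc0]
      refine (pow_le_pow_iff_left₀ (by positivity) (by positivity) two_ne_zero).1 ?_
      have h3 : c * (c * N ^ 2) ≤ c * (32 * ((B : ℝ) ^ (R * n) * (B : ℝ) ^ R)) := by gcongr
      have h4 : c * (B : ℝ) ^ (R * n) * (B : ℝ) ^ R ≤ (q : ℝ) ^ 2 * (B : ℝ) ^ R := by gcongr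
      have h5 : (q : ℝ) ^ 2 * (B : ℝ) ^ R ≤ (q : ℝ) ^ 2 * ((B : ℝ) ^ R) ^ 2 := by
        gcongr; nlinarith
      have h6 : 0 ≤ (q : ℝ) ^ 2 * ((B : ℝ) ^ R) ^ 2 := by positivity
      nlinarith
    · refine (pow_le_pow_iff_left₀ hq.le (by linarith) two_ne_zero).1 ?_
      exact le_of_mul_le_mul_left (k2.trans h2) hc0

end Pool.Agent.Lib.MP_e56372_nt.Fd
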