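import Pool.Agent.Lib.MP_e56372_nt.Fd.MainB

set_option autoImplicit false
open Finset Filter Topology
open scoped NNReal ENNReal

namespace Pool.Agent.Lib.MP_e56372_nt.Fd
open Pool.Agent.Lib.MP_e56372_nt

theorem fibre_one (E : Set ℝ) (h : ∀ r : ℕ, 3 ≤ r → ∃ G, Branch (64 ^ r) (64 ^ r / 4) G ∧
    ∀ ξ ∈ Lim (64 ^ r) G, ξ ∈ E) : dimH E = 1 := by
  refine le_antisymm ((dimH_mono (Set.subset_univ E)).trans Real.dimH_univ.le) ?_
  refine le_of_forall_lt fun c hc => ?_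
  obtain ⟨s, h1, h2⟩ := ENNReal.lt_iff_exists_nnreal_btwn.1 hc
  have s0 : 0 < s := ENNReal.coe_pos.1 (lt_of_le_of_lt zero_le h1)
  have s1 : s < 1 := by exact_mod_cast h2
  obtain ⟨r, hr, hs, -⟩ := par_choice s (by exact_mod_cast s1)
  obtain ⟨G, hG, hE⟩ := h r hr
  have hB : 16 ≤ 64 ^ r := le_trans (by norm_num) (Nat.le_self_pow (by omega) 64)
  obtain ⟨F, g, hF, hg, ht⟩ := twoG_tree _ _ (by omega) (by omega) s s0 hs _ le_rfl G hG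
  have h3 : (1 : ℝ≥0∞) ≤ dimH F / s := by
    refine le_trans ?_ ((dimH_mono ht).trans (hg.dimH_image_le s0))
    rw [Real.dimH_of_nonempty_interior (by rw [interior_Icc]; exact ⟨1 / 2, by norm_num, by norm_num⟩)]
    simp
  rw [ENNReal.le_div_iff_mul_le (Or.inl (ENNReal.coe_pos.2 s0).ne') (Or.inl ENNReal.coe_ne_top),
    one_mul] at h3
  exact h1.trans_le (h3.trans (dimH_mono fun x hx => hE x (hF hx)))

theorem fibre_badK {ζ : ℝ} (h : Bad ζ) : ∃ κ : ℝ, 1 ≤ κ ∧ BadK κ ζ := by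
  obtain ⟨c, c0, h⟩ := h
  refine ⟨max 1 (1 / c), le_max_left _ _, fun b e hb => ?_⟩
  have h1 := h b.natAbs (Int.natAbs_pos.2 hb)
  have e1 : ((b.natAbs : ℕ) : ℝ) = |(b : ℝ)| := by rw [Nat.cast_natAbs, Int.cast_abs]
  rw [e1] at h1
  have h2 : abs (|(b : ℝ)| * ζ - round (|(b : ℝ)| * ζ)) ≤ |b * ζ + e| := by
    rcases abs_cases (b : ℝ) with ⟨h3, -⟩ | ⟨h3, -⟩
    · rw [h3]
      have := round_le ((b : ℝ) * ζ) (-e)
      push_cast at this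
      rwa [sub_neg_eq_add] at this
    · rw [h3]
      refine (round_le (-(b : ℝ) * ζ) e).trans (le_of_eq ?_)
      rw [← abs_neg]; congr 1; ring
  have h3 := h1.trans (mul_le_mul_of_nonneg_left h2 (abs_nonneg _))
  calc (1 : ℝ) = 1 / c * c := by field_simp
    _ ≤ max 1 (1 / c) * (|(b : ℝ)| * |b * ζ + e|) :=
        mul_le_mul (le_max_right _ _) h3 c0.le (by positivity)
    _ = _ := by ring

theorem fibre_exp (ζ : ℝ) (hζ : Bad ζ) (θ : ℝ) (hθ : 0 < θ) :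
    dimH {ξ : ℝ | Bad ξ ∧ ∃ Q : ℕ → ℝ, (∀ k, 1 ≤ Q k) ∧ Tendsto Q atTop atTop ∧
      Tendsto (fun k => Real.log (Q (k + 1)) / Real.log (Q k)) atTop (𝓝 (1 + θ)) ∧
      ∃ c : ℝ, 0 < c ∧ ∀ k, c ≤ Q k * mmin ξ ζ (Q k)} = 1 := by
  obtain ⟨κ, κ1, hZ⟩ := fibre_badK hζ
  refine fibre_one _ fun r hr => ?_
  obtain ⟨y, hy⟩ : ∃ y : ℝ, y = 8 ^ r := ⟨_, rfl⟩
  have y1 : 1 ≤ y := hy ▸ one_le_pow₀ (by norm_num)
  obtain ⟨t, ht⟩ : ∃ t : ℝ, t = min (min (1 / (2 ^ 24 * y)) (θ / (2 ^ 20 * y))) (1 / κ) := ⟨_, rfl⟩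
  have t0 : 0 < t := ht ▸ lt_min (lt_min (by positivity) (by positivity)) (by positivity)
  have t1 : t ≤ 1 / (2 ^ 24 * y) := ht ▸ (min_le_left _ _).trans (min_le_left _ _)
  have t2 : 2 ^ 20 * y * t ≤ θ := by
    have : t ≤ θ / (2 ^ 20 * y) := ht ▸ (min_le_left _ _).trans (min_le_right _ _)
    rwa [le_div_iff₀' (by positivity)] at this
  have t3 : t * κ ≤ 1 := by
    have : t ≤ 1 / κ := ht ▸ min_le_right _ _
    rwa [le_div_iff₀ (by linarith)] at this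
  have h1 : t * y ≤ 1 / 2 ^ 24 := by
    rw [le_div_iff₀ (by positivity)] at t1 ⊢; linarith
  have h2 : t ≤ 1 / 2 ^ 24 := le_trans (le_mul_of_one_le_right t0.le y1) h1
  obtain ⟨m1, hm1⟩ := pow_unbounded_of_one_lt (max (3 * κ) (1 / t ^ 20))
    (show (1 : ℝ) < 2 by norm_num)
  have hm0 : ∀ m, m1 + 1 ≤ m → 3 * κ ≤ 2 ^ m ∧ 1 ≤ t ^ 20 * 2 ^ m := fun m hm => by
    have h5 : (2 : ℝ) ^ m1 ≤ 2 ^ m := pow_le_pow_right₀ (by norm_num) (by omega)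
    refine ⟨((le_max_left _ _).trans hm1.le).trans h5, ?_⟩
    rw [← div_le_iff₀' (by positivity)]
    exact ((le_max_right _ _).trans hm1.le).trans h5
  have h10 : 1 ≤ m1 + 1 := by omega
  have hmono := seq_mono (s := fun _ => θ) h10 fun _ _ => hθ
  have hg := seq_ge (m1 + 1) (fun _ => θ)
  have hstep := seq_step (m1 + 1) (fun _ => θ)
  have hrat := seq_ratio (s := fun _ => θ) h10 (fun _ _ => hθ) tendsto_const_nhds
  generalize seq (m1 + 1) (fun _ => θ) = m at hmono hg hstep hrat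
  choose Q q1 q2 q3 using fun k => level κ ζ κ1 hZ (2 ^ m k) (one_le_pow₀ (by norm_num))
  obtain ⟨G', hG', hξ⟩ := core_tree2 r hr κ ζ κ1 hZ m (fun _ => t) Q hmono
    (hm0 _ (hg 0)).1 q1 q2 q3 (fun _ => t0) (fun _ => hy ▸ t1) (fun _ => by
      have h3 : t ^ 19 ≤ (1 / 2 ^ 24) ^ 19 := pow_le_pow_left₀ t0.le h2 19
      calc 2 ^ 33 * t ^ 20 * κ = 2 ^ 33 * t ^ 19 * (t * κ) := by ring
        _ ≤ 2 ^ 33 * (1 / 2 ^ 24) ^ 19 * 1 := by gcongr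
        _ < 1 := by norm_num) (fun k => (hm0 _ (hg k)).2) (fun k => by
      have h3 := hstep k
      have h4 := mul_le_mul_of_nonneg_right t2 (show (0 : ℝ) ≤ m k by positivity)
      rw [← hy]
      linarith)
  obtain ⟨b1, b2⟩ := log_ratio2 hmono.tendsto_atTop hrat q1 q2
  exact ⟨G', hG', fun ξ hx => ⟨bad_of (hξ ξ hx).1, Q,
    fun k => (one_le_pow₀ (by norm_num)).trans (q1 k), b1, b2, t ^ 12, pow_pos t0 _, (hξ ξ hx).2⟩⟩

end Pool.Agent.Lib.MP_e56372_nt.Fd
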