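import Pool.Agent.Lib.MP_e56372_nt.Fd.Defs

set_option autoImplicit false
open Finset Filter Topology
open scoped NNReal ENNReal

namespace Pool.Agent.Lib.MP_e56372_nt.Fd
open Pool.Agent.Lib.MP_e56372_nt

/-- distance of `b ζ` to the nearest integer. -/
noncomputable def levD (ζ : ℝ) (b : ℕ) : ℝ := |(b : ℝ) * ζ - round ((b : ℝ) * ζ)|

lemma levD_le (ζ : ℝ) (b e : ℤ) : levD ζ b.natAbs ≤ |b * ζ + e| := by
  unfold levD
  rcases Int.natAbs_eq b with h | h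
  · have h1 : ((b.natAbs : ℕ) : ℝ) = b := by
      conv_rhs => rw [h]
      simp
    have := round_le ((b : ℝ) * ζ) (-e)
    rw [h1]
    simpa using this
  · have h1 : ((b.natAbs : ℕ) : ℝ) = -b := by
      have : (b : ℝ) = -((b.natAbs : ℕ) : ℝ) := by
        conv_lhs => rw [h]
        simp
      linarith
    have := round_le (-(b : ℝ) * ζ) e
    rw [h1]
    refine this.trans (le_of_eq ?_)
    rw [← abs_neg]; congr 1; ring

theorem level (κ ζ : ℝ) (hκ : 1 ≤ κ) (h : BadK κ ζ) (N : ℝ) (hN : 1 ≤ N) :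
    ∃ Q : ℝ, N ≤ Q ∧ Q ≤ 3 * κ * N ∧ LevOK ζ Q := by
  classical
  set N' := ⌈N⌉₊ with hN'
  have hN1 : N ≤ N' := Nat.le_ceil N
  have hN2 : (N' : ℝ) ≤ 2 * N := by
    have := Nat.ceil_lt_add_one (by linarith : (0 : ℝ) ≤ N)
    linarith
  have hN3 : (N' : ℝ) < N + 1 := Nat.ceil_lt_add_one (by linarith)
  have hN0 : 1 ≤ N' := Nat.ceil_pos.2 (by linarith)
  obtain ⟨q, hq, hmin⟩ := exists_min_image (Icc 1 N') (levD ζ) ⟨1, mem_Icc.2 ⟨le_rfl, hN0⟩⟩
  obtain ⟨hq1, hq2⟩ := mem_Icc.1 hq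
  have hq1' : (1 : ℝ) ≤ q := by exact_mod_cast hq1
  have hq2' : (q : ℝ) ≤ N' := by exact_mod_cast hq2
  set d := levD ζ q with hd
  have hb : ∀ b : ℕ, 0 < b → 1 ≤ κ * b * levD ζ b := fun b hb => by
    have := h b (-round ((b : ℝ) * ζ)) (by exact_mod_cast hb.ne')
    simpa [levD, sub_eq_add_neg] using this
  have hd0 : 0 ≤ d := abs_nonneg _
  have hd1 : 1 ≤ κ * N' * d := (hb q hq1).trans (by gcongr)
  have hdp : 0 < d := by
    rcases hd0.eq_or_lt with h0 | h0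
    · rw [← h0] at hd1; norm_num at hd1
    · exact h0
  have hκN : 1 ≤ κ * N' := by nlinarith
  set n := ⌊κ * N'⌋₊ with hn
  have hn0 : 0 < n := Nat.floor_pos.2 hκN
  have hn1 : (n : ℝ) ≤ κ * N' := Nat.floor_le (by linarith)
  have hn2 : κ * N' < n + 1 := Nat.lt_floor_add_one _
  obtain ⟨k, hk0, hkn, hk⟩ := Real.exists_nat_abs_mul_sub_round_le ζ hn0
  have hex : ∃ k : ℕ, 0 < k ∧ levD ζ k < d := by
    refine ⟨k, hk0, lt_of_le_of_lt hk ?_⟩
    rw [div_lt_iff₀ (by positivity)]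
    nlinarith
  have hkd : 0 < k ∧ levD ζ k < d := by
    refine ⟨hk0, lt_of_le_of_lt hk ?_⟩
    rw [div_lt_iff₀ (by positivity)]
    nlinarith
  set q' := Nat.find hex with hq'
  obtain ⟨h1, h2⟩ : 0 < q' ∧ levD ζ q' < d := Nat.find_spec hex
  have h3 : q' ≤ n := (Nat.find_min' hex hkd).trans hkn
  have h4 : N' < q' := by
    by_contra h5
    exact absurd (hmin q' (mem_Icc.2 ⟨h1, not_lt.1 h5⟩)) (not_le.2 h2)
  have h4' : (N' : ℝ) + 1 ≤ q' := by exact_mod_cast h4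
  have h3' : (q' : ℝ) ≤ n := by exact_mod_cast h3
  have hdet : 1 ≤ ((q : ℝ) + q') * d := by
    set p := round ((q : ℝ) * ζ)
    set p' := round ((q' : ℝ) * ζ)
    have e : (((q : ℤ) * p' - (q' : ℤ) * p : ℤ) : ℝ)
        = q' * ((q : ℝ) * ζ - p) - q * ((q' : ℝ) * ζ - p') := by push_cast; ring
    have a1 : |(q' : ℝ) * ((q : ℝ) * ζ - p)| = q' * d := by
      rw [abs_mul, Nat.abs_cast]; rfl
    have a2 : |(q : ℝ) * ((q' : ℝ) * ζ - p')| = q * levD ζ q' := by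
      rw [abs_mul, Nat.abs_cast]; rfl
    have a3 : (q : ℝ) * levD ζ q' ≤ q * d := by gcongr
    have hne : (q : ℤ) * p' - (q' : ℤ) * p ≠ 0 := by
      intro h0
      rw [h0] at e
      have e2 : (q' : ℝ) * ((q : ℝ) * ζ - p) = q * ((q' : ℝ) * ζ - p') := by
        push_cast at e; linarith
      rw [e2, a2] at a1
      nlinarith
    have a4 : (1 : ℝ) ≤ |(((q : ℤ) * p' - (q' : ℤ) * p : ℤ) : ℝ)| := by
      exact_mod_cast Int.one_le_abs hne
    rw [e] at a4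
    have := abs_sub ((q' : ℝ) * ((q : ℝ) * ζ - p)) (q * ((q' : ℝ) * ζ - p'))
    linarith
  refine ⟨q' - 1 / 2, by linarith, by nlinarith, fun b e hb0 hbQ => ?_⟩
  have b1 : ((b.natAbs : ℕ) : ℝ) = |(b : ℝ)| := by
    rw [← Int.cast_natCast, Int.natCast_natAbs, Int.cast_abs]
  have b2 : b.natAbs < q' := by
    have : ((b.natAbs : ℕ) : ℝ) < q' := by linarith
    exact_mod_cast this
  have b3 : d ≤ levD ζ b.natAbs := by
    by_contra h5
    exact Nat.find_min hex b2 ⟨Int.natAbs_pos.2 hb0, not_le.1 h5⟩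
  have b4 := b3.trans (levD_le ζ b e)
  calc (1 : ℝ) ≤ (q + q') * d := hdet
    _ ≤ 2 * (q' - 1 / 2) * d := by gcongr; linarith
    _ ≤ _ := by gcongr; linarith

end Pool.Agent.Lib.MP_e56372_nt.Fd
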