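import Mathlib

set_option autoImplicit false
open Finset Filter Topology
open scoped NNReal ENNReal

namespace Pool.Agent.Lib.MP_e56372_nt.Fd

theorem log_ratio2 {m : ℕ → ℕ} {Q : ℕ → ℝ} {ρ D : ℝ} (hm : Tendsto m atTop atTop)
    (hr : Tendsto (fun k => (m (k + 1) : ℝ) / m k) atTop (𝓝 ρ))
    (h1 : ∀ k, 2 ^ m k ≤ Q k) (h2 : ∀ k, Q k ≤ D * 2 ^ m k) :
    Tendsto Q atTop atTop ∧
    Tendsto (fun k => Real.log (Q (k + 1)) / Real.log (Q k)) atTop (𝓝 ρ) := by
  set L := Real.log 2 with hL
  have hL0 : 0 < L := Real.log_pos (by norm_num)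
  have hQ0 : ∀ k, 0 < Q k := fun k => lt_of_lt_of_le (by positivity) (h1 k)
  have hD : 0 < D := by
    have h3 := lt_of_lt_of_le (hQ0 0) (h2 0)
    exact (mul_pos_iff_of_pos_right (by positivity)).1 h3
  have lo : ∀ k, m k * L ≤ Real.log (Q k) := fun k => by
    have := Real.log_le_log (by positivity) (h1 k)
    rwa [Real.log_pow] at this
  have hi : ∀ k, Real.log (Q k) ≤ m k * L + Real.log D := fun k => by
    have := Real.log_le_log (hQ0 k) (h2 k)
    rw [Real.log_mul hD.ne' (by positivity), Real.log_pow] at this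
    linarith
  have hmR : Tendsto (fun k => (m k : ℝ)) atTop atTop := tendsto_natCast_atTop_atTop.comp hm
  have hpos : ∀ᶠ k in atTop, (0 : ℝ) < m k := hmR.eventually_gt_atTop 0
  have hq : Tendsto (fun k => Real.log (Q k) / m k) atTop (𝓝 L) := by
    have h3 : Tendsto (fun k => L + Real.log D / m k) atTop (𝓝 L) := by
      simpa using (hmR.const_div_atTop (Real.log D)).const_add L
    refine tendsto_of_tendsto_of_tendsto_of_le_of_le' tendsto_const_nhds h3 ?_ ?_
    · filter_upwards [hpos] with k hk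
      rw [le_div_iff₀ hk]; linarith [lo k]
    · filter_upwards [hpos] with k hk
      rw [div_le_iff₀ hk, add_mul, div_mul_cancel₀ _ hk.ne']; linarith [hi k]
  constructor
  · have h3 : Tendsto (fun k => Real.log (Q k)) atTop atTop :=
      tendsto_atTop_mono lo (hmR.atTop_mul_const hL0)
    refine (Real.tendsto_exp_atTop.comp h3).congr fun k => Real.exp_log (hQ0 k)
  · have h3 := ((hq.comp (tendsto_add_atTop_nat 1)).mul hr).div hq hL0.ne'
    rw [mul_div_cancel_left₀ _ hL0.ne'] at h3
    refine h3.congr' ?_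
    filter_upwards [hpos, (tendsto_add_atTop_nat 1).eventually hpos] with k hk hk'
    simp only [Function.comp, Pi.div_apply]
    have hk2 : ((m (k + 1) : ℕ) : ℝ) ≠ 0 := hk'.ne'
    have hk3 : 0 < Real.log (Q k) := lt_of_lt_of_le (mul_pos hk hL0) (lo k)
    field_simp

end Pool.Agent.Lib.MP_e56372_nt.Fd
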