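import Mathlib

set_option autoImplicit false
open Finset Filter Topology
open scoped NNReal ENNReal

namespace Pool.Agent.Lib.MP_e56372_nt.Fd

namespace Parx

lemma key (s : ℝ) (a b : ℕ) (h : (a : ℝ) * s ≤ b) : ((2 ^ a : ℕ) : ℝ) ^ s ≤ ((2 ^ b : ℕ) : ℝ) := by
  push_cast
  rw [← Real.rpow_natCast, ← Real.rpow_natCast, ← Real.rpow_mul (by norm_num)]
  exact Real.rpow_le_rpow_of_exponent_le (by norm_num) h

lemma p64 (r : ℕ) : 64 ^ r = 2 ^ (6 * r) := by
  rw [pow_mul]; norm_num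

lemma d64 (r : ℕ) (hr : 1 ≤ r) : 64 ^ r / 4 = 2 ^ (6 * r - 2) := by
  have : 6 * r = (6 * r - 2) + 2 := by omega
  rw [p64, this, pow_add]
  simp

end Parx

open Parx in
theorem par_choice (s : ℝ) (hs : s < 1) : ∃ r : ℕ, 3 ≤ r ∧
    ((64 ^ r : ℕ) : ℝ) ^ s ≤ ((64 ^ r / 4 : ℕ) : ℝ) ∧ ∀ L : ℕ, ∃ R : ℕ, L < R ∧
      (((64 ^ r) ^ R : ℕ) : ℝ) ^ s ≤ (((64 ^ r / 4) ^ (R - L) : ℕ) : ℝ) := by
  have h1 : 0 < 1 - s := by linarith
  obtain ⟨r0, hr0⟩ := exists_nat_ge (1 / (1 - s))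
  obtain ⟨r, hr⟩ : ∃ r : ℕ, r = r0 + 3 := ⟨_, rfl⟩
  have r3 : 3 ≤ r := by omega
  have hr1 : 1 ≤ (r : ℝ) * (1 - s) := by
    rw [div_le_iff₀ h1] at hr0
    rw [hr]
    push_cast
    nlinarith
  have c1 : ((6 * r - 2 : ℕ) : ℝ) = 6 * r - 2 := by
    rw [Nat.cast_sub (by omega)]
    push_cast
    ring
  refine ⟨r, r3, ?_, fun L => ?_⟩
  · rw [d64 r (by omega), p64]
    refine key s _ _ ?_
    rw [c1]
    push_cast
    linarith
  · refine ⟨L + (6 * r * L + 1), by omega, ?_⟩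
    rw [d64 r (by omega), p64, ← pow_mul, ← pow_mul, Nat.add_sub_cancel_left]
    refine key s _ _ ?_
    rw [Nat.cast_mul (6 * r - 2), c1]
    push_cast
    have l0 : (0 : ℝ) ≤ L := Nat.cast_nonneg L
    have rR : (3 : ℝ) ≤ r := by exact_mod_cast r3
    have a1 : (r : ℝ) * s ≤ r - 1 := by linarith
    have a2 : (0 : ℝ) ≤ L + (6 * r * L + 1) := by positivity
    have a3 : (0 : ℝ) ≤ r * L := by positivity
    calc 6 * (r : ℝ) * (L + (6 * r * L + 1)) * s = 6 * (L + (6 * r * L + 1)) * (r * s) := by ring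
      _ ≤ 6 * (L + (6 * r * L + 1)) * (r - 1) := mul_le_mul_of_nonneg_left a1 (by positivity)
      _ ≤ _ := by nlinarith

theorem log_ratio3 {m : ℕ → ℕ} {Q : ℕ → ℝ} {ρ D : ℝ} (hD : 0 < D) (hm : Tendsto m atTop atTop)
    (hr : Tendsto (fun k => (m (k + 1) : ℝ) / m k) atTop (𝓝 ρ))
    (h1 : ∀ k, 2 ^ m k ≤ D * Q k) (h2 : ∀ k, Q k ≤ D * 2 ^ m k) :
    Tendsto Q atTop atTop ∧
    Tendsto (fun k => Real.log (Q (k + 1)) / Real.log (Q k)) atTop (𝓝 ρ) := by
  set L := Real.log 2 with hL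
  have hL0 : 0 < L := Real.log_pos (by norm_num)
  have hQ0 : ∀ k, 0 < Q k := fun k =>
    (mul_pos_iff_of_pos_left hD).1 (lt_of_lt_of_le (by positivity) (h1 k))
  have lo : ∀ k, m k * L - Real.log D ≤ Real.log (Q k) := fun k => by
    have := Real.log_le_log (by positivity) (h1 k)
    rw [Real.log_mul hD.ne' (hQ0 k).ne', Real.log_pow] at this
    linarith
  have hi : ∀ k, Real.log (Q k) ≤ m k * L + Real.log D := fun k => by
    have := Real.log_le_log (hQ0 k) (h2 k)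
    rw [Real.log_mul hD.ne' (by positivity), Real.log_pow] at this
    linarith
  have hmR : Tendsto (fun k => (m k : ℝ)) atTop atTop := tendsto_natCast_atTop_atTop.comp hm
  have hpos : ∀ᶠ k in atTop, (0 : ℝ) < m k := hmR.eventually_gt_atTop 0
  have hq : Tendsto (fun k => Real.log (Q k) / m k) atTop (𝓝 L) := by
    have h3 : Tendsto (fun k => L + Real.log D / m k) atTop (𝓝 L) := by
      simpa using (hmR.const_div_atTop (Real.log D)).const_add L
    have h4 : Tendsto (fun k => L - Real.log D / m k) atTop (𝓝 L) := by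
      simpa using (hmR.const_div_atTop (Real.log D)).const_sub L
    refine tendsto_of_tendsto_of_tendsto_of_le_of_le' h4 h3 ?_ ?_
    · filter_upwards [hpos] with k hk
      rw [le_div_iff₀ hk, sub_mul, div_mul_cancel₀ _ hk.ne']; linarith [lo k]
    · filter_upwards [hpos] with k hk
      rw [div_le_iff₀ hk, add_mul, div_mul_cancel₀ _ hk.ne']; linarith [hi k]
  constructor
  · have h3 : Tendsto (fun k => Real.log (Q k)) atTop atTop :=
      tendsto_atTop_mono lo (tendsto_atTop_add_const_right _ _ (hmR.atTop_mul_const hL0))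
    refine (Real.tendsto_exp_atTop.comp h3).congr fun k => Real.exp_log (hQ0 k)
  · have h3 := ((hq.comp (tendsto_add_atTop_nat 1)).mul hr).div hq hL0.ne'
    rw [mul_div_cancel_left₀ _ hL0.ne'] at h3
    refine h3.congr' ?_
    filter_upwards [hpos, (tendsto_add_atTop_nat 1).eventually hpos] with k hk hk'
    simp only [Function.comp, Pi.div_apply]
    have hk2 : ((m (k + 1) : ℕ) : ℝ) ≠ 0 := hk'.ne'
    by_cases h : Real.log (Q k) = 0
    · simp [h]
    · field_simp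

end Pool.Agent.Lib.MP_e56372_nt.Fd
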