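import Pool.Agent.Lib.MP_e56372_nt.Fd.TwoG
import Pool.Agent.Lib.MP_e56372_nt.Fd.DipT
import Pool.Agent.Lib.MP_e56372_nt.Fd.Lev
import Pool.Agent.Lib.MP_e56372_nt.Fd.CoreT
import Pool.Agent.Lib.MP_e56372_nt.Fd.Par

set_option autoImplicit false
open Finset Filter Topology
open scoped NNReal ENNReal

namespace Pool.Agent.Lib.MP_e56372_nt.Fd
open Pool.Agent.Lib.MP_e56372_nt

theorem full_lim (θ : ℝ) (hθ : 0 < θ) :
    dimH {p : ℝ × ℝ | ∃ Q : ℕ → ℝ, (∀ k, 1 ≤ Q k) ∧ Tendsto Q atTop atTop ∧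
      Tendsto (fun k => Real.log (Q (k + 1)) / Real.log (Q k)) atTop (𝓝 (1 + θ)) ∧
      ∃ L : ℝ, 0 < L ∧ Tendsto (fun k => Q k * mmin p.1 p.2 (Q k)) atTop (𝓝 L)} = 2 := by
  refine dim_two_gen _ fun s _ hs1 => ?_
  obtain ⟨r, hr, hs, hR⟩ := par_choice s (by exact_mod_cast hs1)
  have hB : 16 ≤ 64 ^ r := le_trans (by norm_num) (Nat.le_self_pow (by omega) 64)
  have hev : Even (64 ^ r) := Even.pow_of_ne_zero (by decide) (by omega)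
  obtain ⟨y, hy⟩ : ∃ y : ℝ, y = 8 ^ r := ⟨_, rfl⟩
  have y1 : 1 ≤ y := hy ▸ one_le_pow₀ (by norm_num)
  have e : ((64 ^ r : ℕ) : ℝ) = y ^ 2 := by
    rw [hy, ← pow_mul, mul_comm, pow_mul]; push_cast; norm_num
  obtain ⟨t, ht⟩ : ∃ t : ℝ, t = min (1 / (2 ^ 24 * y)) (θ / (2 ^ 20 * y)) := ⟨_, rfl⟩
  have t0 : 0 < t := ht ▸ lt_min (by positivity) (by positivity)
  have t1 : t ≤ 1 / (2 ^ 24 * y) := ht ▸ min_le_left _ _
  have t2 : 2 ^ 20 * y * t ≤ θ := by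
    have : t ≤ θ / (2 ^ 20 * y) := ht ▸ min_le_right _ _
    rwa [le_div_iff₀' (by positivity)] at this
  have h1 : t * y ≤ 1 / 2 ^ 24 := by
    rw [le_div_iff₀ (by positivity)] at t1 ⊢; linarith
  have h2 : t ≤ 1 / 2 ^ 24 := le_trans (le_mul_of_one_le_right t0.le y1) h1
  have h2' : t ≤ 1 := h2.trans (by norm_num)
  obtain ⟨c, hc⟩ : ∃ c : ℝ, c = t ^ 12 := ⟨_, rfl⟩
  have c0 : 0 < c := hc ▸ pow_pos t0 _
  have c1 : c ≤ 1 := hc ▸ pow_le_one₀ t0.le h2'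
  have c2 : 512 * ((64 ^ r : ℕ) : ℝ) ^ 2 * c ≤ 1 := by
    have h3 : (t * y) ^ 4 ≤ (1 / 2 ^ 24) ^ 4 := pow_le_pow_left₀ (by positivity) h1 4
    have h4 : t ^ 8 ≤ 1 := pow_le_one₀ t0.le h2'
    calc _ = 512 * (t * y) ^ 4 * t ^ 8 := by rw [e, hc]; ring
      _ ≤ 512 * (1 / 2 ^ 24) ^ 4 * 1 := by gcongr
      _ ≤ 1 := by norm_num
  have hBR : (16 : ℝ) ≤ ((64 ^ r : ℕ) : ℝ) := by exact_mod_cast hB
  obtain ⟨L, hL⟩ := pow_unbounded_of_one_lt (64 * ((64 ^ r : ℕ) : ℝ) / c ^ 2)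
    (show (1 : ℝ) < ((64 ^ r : ℕ) : ℝ) by linarith)
  rw [div_lt_iff₀ (by positivity)] at hL
  obtain ⟨R, hLR, hsR⟩ := hR L
  obtain ⟨G, hG, hZ⟩ := dip_tree (64 ^ r) hB hev c c0 c2 L R hL.le hLR
  have b2 : 2 ≤ 64 ^ r / 4 := by omega
  refine ⟨(64 ^ r) ^ R, (64 ^ r / 4) ^ (R - L), 64 ^ r, 64 ^ r / 4, Nat.one_le_pow _ _ (by omega),
    b2.trans (Nat.le_self_pow (by omega) _), by omega, b2, hsR, hs, G, hG, fun ζ hζ => ?_⟩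
  obtain ⟨hZ1, hZ2⟩ := hZ ζ hζ
  obtain ⟨D, hD⟩ : ∃ D : ℝ, D = 6 * ((64 ^ r : ℕ) : ℝ) ^ R / c := ⟨_, rfl⟩
  rw [← hD] at hZ2
  have κ1 : 1 ≤ 1 / c := one_le_one_div c0 c1
  have D1 : 3 * (1 / c) ≤ D := by
    have : (1 : ℝ) ≤ ((64 ^ r : ℕ) : ℝ) ^ R := one_le_pow₀ (by linarith)
    rw [hD, mul_one_div]
    exact div_le_div_of_nonneg_right (by linarith) c0.le
  obtain ⟨m1, hm1⟩ := pow_unbounded_of_one_lt (max D (1 / t ^ 20)) (show (1 : ℝ) < 2 by norm_num)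
  have hm0 : ∀ m, m1 + 1 ≤ m → D ≤ 2 ^ m ∧ 1 ≤ t ^ 20 * 2 ^ m := fun m hm => by
    have h5 : (2 : ℝ) ^ m1 ≤ 2 ^ m := pow_le_pow_right₀ (by norm_num) (by omega)
    refine ⟨((le_max_left _ _).trans hm1.le).trans h5, ?_⟩
    rw [← div_le_iff₀' (by positivity)]
    exact ((le_max_right _ _).trans hm1.le).trans h5
  have h10 : 1 ≤ m1 + 1 := by omega
  have hmono := seq_mono (s := fun _ => θ) h10 fun _ _ => hθ
  have hg := seq_ge (m1 + 1) (fun _ => θ)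
  have hstep := seq_step (m1 + 1) (fun _ => θ)
  have hrat := seq_ratio (s := fun _ => θ) h10 (fun _ _ => hθ) tendsto_const_nhds
  generalize seq (m1 + 1) (fun _ => θ) = m at hmono hg hstep hrat
  choose Q q1 q2 q3 using fun k => level (1 / c) ζ κ1 hZ1 (2 ^ m k) (one_le_pow₀ (by norm_num))
  obtain ⟨G', hG', hξ⟩ := core_tree r hr (1 / c) ζ κ1 hZ1 m (fun _ => t) Q hmono
    (D1.trans (hm0 _ (hg 0)).1) q1 q2 q3 (fun _ => t0) (fun _ => hy ▸ t1) (fun _ => by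
      have h3 : t ^ 8 ≤ (1 / 2 ^ 24) ^ 8 := pow_le_pow_left₀ t0.le h2 8
      calc 2 ^ 33 * t ^ 20 * (1 / c) = 2 ^ 33 * t ^ 8 := by rw [hc]; field_simp
        _ ≤ 2 ^ 33 * (1 / 2 ^ 24) ^ 8 := by gcongr
        _ < 1 := by norm_num) (fun k => (hm0 _ (hg k)).2) (fun k => by
      have h3 := hstep k
      have h4 := mul_le_mul_of_nonneg_right t2 (show (0 : ℝ) ≤ m k by positivity)
      rw [← hy]
      linarith)
  refine ⟨G', hG', fun ξ hx => ?_⟩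
  have key : ∀ k, ∃ Q' : ℝ, 1 ≤ Q' ∧ 2 ^ m k ≤ D * Q' ∧ Q' ≤ D * 2 ^ m k ∧
      Q' * mmin ξ ζ Q' = c := by
    intro k
    obtain ⟨q, p, d0, d1, d2, d3⟩ := hZ2 (2 ^ m k) (hm0 _ (hg k)).1
    have hq1 : (1 : ℝ) ≤ q := by exact_mod_cast d0
    obtain ⟨Q', a1, a2, a3⟩ := ivt ξ ζ c0 d0 (d2.trans (q1 k)) (by
      have f1 := mmin_le ξ ζ d0 le_rfl
      have f2 := abs_sub_round ((q : ℝ) * ξ)
      have f3 := round_le ((q : ℝ) * ζ) p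
      have f4 : mmin ξ ζ q ≤ 1 / 2 * |q * ζ - p| := f1.trans (by gcongr)
      have f5 := mul_le_mul_of_nonneg_left f4 (show (0 : ℝ) ≤ q by linarith)
      linarith) (hc ▸ hξ ξ hx k)
    have D0 : 0 ≤ D := by linarith
    exact ⟨Q', hq1.trans a1, d1.trans (mul_le_mul_of_nonneg_left a1 D0),
      a2.trans ((q2 k).trans (mul_le_mul_of_nonneg_right D1 (by positivity))), a3⟩
  choose Q' a1 a2 a3 a4 using key
  obtain ⟨b1, b2⟩ := log_ratio3 (D := D) (by linarith) hmono.tendsto_atTop hrat a2 a3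
  exact ⟨Q', a1, b1, b2, c, c0, by simp only [a4]; exact tendsto_const_nhds⟩

end Pool.Agent.Lib.MP_e56372_nt.Fd
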