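import Pool.Agent.Lib.MP_e56372_nt.Fd.Defs

set_option autoImplicit false
open Finset Filter Topology
open scoped NNReal ENNReal

namespace Pool.Agent.Lib.MP_e56372_nt.Fd
open Pool.Agent.Lib.MP_e56372_nt

theorem slow_choice {ω : ℝ → ℝ} (hω : Tendsto ω atTop atTop) (ε D : ℝ) (hε : 0 < ε) :
    ∃ (m0 : ℕ) (t : ℕ → ℝ), 1 ≤ m0 ∧ D ≤ 2 ^ m0 ∧ (∀ m, 0 < t m) ∧ Tendsto t atTop (𝓝 0) ∧
      ∀ m, m0 ≤ m → t m ≤ ε ∧ 1 ≤ t m ^ 20 * 2 ^ m ∧ ∀ Q : ℝ, 2 ^ m ≤ Q → 1 ≤ ω Q * t m ^ 12 := by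
  classical
  let P : ℕ → ℕ → Prop := fun m n =>
    (∀ Q : ℝ, 2 ^ m ≤ Q → ((n : ℝ) + 1) ^ 12 ≤ ω Q) ∧ ((n : ℝ) + 1) ^ 20 ≤ 2 ^ m
  have h2 : Tendsto (fun m : ℕ => (2 : ℝ) ^ m) atTop atTop :=
    tendsto_pow_atTop_atTop_of_one_lt one_lt_two
  have hP : ∀ n : ℕ, ∀ᶠ m in atTop, P m n := by
    intro n
    obtain ⟨A, hA⟩ := eventually_atTop.1 (hω.eventually_ge_atTop (((n : ℝ) + 1) ^ 12))
    filter_upwards [h2.eventually_ge_atTop A, h2.eventually_ge_atTop (((n : ℝ) + 1) ^ 20)]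
      with m h3 h4
    exact ⟨fun Q hQ => hA Q (h3.trans hQ), h4⟩
  let g : ℕ → ℕ := fun m => Nat.findGreatest (P m) m
  have hg : Tendsto g atTop atTop := by
    refine tendsto_atTop.2 fun n => ?_
    filter_upwards [hP n, eventually_ge_atTop n] with m h3 h4
    exact Nat.le_findGreatest h4 h3
  have ht : Tendsto (fun m => 1 / ((g m : ℝ) + 1)) atTop (𝓝 0) :=
    tendsto_one_div_add_atTop_nhds_zero_nat.comp hg
  obtain ⟨m0, hm0⟩ := eventually_atTop.1 ((ht.eventually (ge_mem_nhds hε)).and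
    ((hP 0).and ((h2.eventually_ge_atTop D).and (eventually_ge_atTop 1))))
  refine ⟨m0, fun m => 1 / ((g m : ℝ) + 1), (hm0 m0 le_rfl).2.2.2, (hm0 m0 le_rfl).2.2.1,
    fun m => by positivity, ht, fun m hm => ⟨(hm0 m hm).1, ?_, fun Q hQ => ?_⟩⟩
  · have h3 : P m (g m) := Nat.findGreatest_spec (Nat.zero_le m) (hm0 m hm).2.1
    rw [div_pow, one_pow, one_div, ← div_eq_inv_mul, le_div_iff₀ (by positivity), one_mul]
    exact h3.2
  · have h3 : P m (g m) := Nat.findGreatest_spec (Nat.zero_le m) (hm0 m hm).2.1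
    rw [div_pow, one_pow, mul_one_div, le_div_iff₀ (by positivity), one_mul]
    exact h3.1 Q hQ

end Pool.Agent.Lib.MP_e56372_nt.Fd
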