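import Pool.Agent.Lib.MP_e56372_nt.Fd.Two
import Pool.Agent.Lib.MP_e56372_nt.Fd.BadT
import Pool.Agent.Lib.MP_e56372_nt.Fd.Lev
import Pool.Agent.Lib.MP_e56372_nt.Fd.CoreT
import Pool.Agent.Lib.MP_e56372_nt.Fd.LogR
import Pool.Agent.Lib.MP_e56372_nt.Fd.Slow

set_option autoImplicit false
open Finset Filter Topology
open scoped NNReal ENNReal

namespace Pool.Agent.Lib.MP_e56372_nt.Fd
open Pool.Agent.Lib.MP_e56372_nt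

theorem mains_eps (r : ℕ) (t : ℝ) (t0 : 0 < t) (t1 : t ≤ 1 / (2 ^ 24 * 8 ^ r)) :
    2 ^ 33 * t ^ 20 * (4 * (((64 ^ r : ℕ) : ℝ)) ^ 2) < 1 := by
  obtain ⟨y, hy⟩ : ∃ y : ℝ, y = 8 ^ r := ⟨_, rfl⟩
  have y1 : 1 ≤ y := hy ▸ one_le_pow₀ (by norm_num)
  have e : ((64 ^ r : ℕ) : ℝ) = y ^ 2 := by
    rw [hy, ← pow_mul, mul_comm, pow_mul]; push_cast; norm_num
  rw [← hy, le_div_iff₀ (by positivity)] at t1
  have h1 : t * y ≤ 1 / 2 ^ 24 := by rw [le_div_iff₀ (by positivity)]; linarith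
  have h2 : t ≤ 1 := by nlinarith
  have h3 : (t * y) ^ 4 ≤ (1 / 2 ^ 24) ^ 4 := pow_le_pow_left₀ (by positivity) h1 4
  have h4 : t ^ 16 ≤ 1 := pow_le_one₀ t0.le h2
  calc _ = 2 ^ 35 * (t * y) ^ 4 * t ^ 16 := by rw [e]; ring
    _ ≤ 2 ^ 35 * (1 / 2 ^ 24) ^ 4 * 1 := by gcongr
    _ < 1 := by norm_num

theorem full_slow (ω : ℝ → ℝ) (hω : Tendsto ω atTop atTop) :
    dimH {p : ℝ × ℝ | ∃ Q : ℕ → ℝ, (∀ k, 1 ≤ Q k) ∧ Tendsto Q atTop atTop ∧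
      Tendsto (fun k => Real.log (Q (k + 1)) / Real.log (Q k)) atTop (𝓝 1) ∧
      ∀ k, 1 ≤ ω (Q k) * (Q k * mmin p.1 p.2 (Q k))} = 2 := by
  refine dim_two _ fun r hr => ?_
  have hB : 16 ≤ 64 ^ r := le_trans (by norm_num) (Nat.le_self_pow (by omega) 64)
  obtain ⟨G, hG, hZ⟩ := bad_tree (64 ^ r) hB
  refine ⟨G, hG, fun ζ hζ => ?_⟩
  obtain ⟨κ, hκ⟩ : ∃ κ : ℝ, κ = 4 * ((64 ^ r : ℕ) : ℝ) ^ 2 := ⟨_, rfl⟩
  have hBR : (16 : ℝ) ≤ ((64 ^ r : ℕ) : ℝ) := by exact_mod_cast hB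
  have κ1 : 1 ≤ κ := by rw [hκ]; nlinarith
  have hZ' : BadK κ ζ := hκ ▸ hZ ζ hζ
  obtain ⟨m0, t, h1, hD, t0, ht, hm0⟩ :=
    slow_choice hω (1 / (2 ^ 24 * 8 ^ r)) (3 * κ) (by positivity)
  have hs : ∀ m, m0 ≤ m → 0 < 2 ^ 20 * 8 ^ r * t m := fun m _ => by have := t0 m; positivity
  have hmono := seq_mono h1 hs
  have hg := seq_ge m0 (fun m => 2 ^ 20 * 8 ^ r * t m)
  have hstep := seq_step m0 (fun m => 2 ^ 20 * 8 ^ r * t m)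
  have hrat := seq_ratio h1 hs (σ := 0) (by simpa using ht.const_mul (2 ^ 20 * 8 ^ r))
  have hzero : seq m0 (fun m => 2 ^ 20 * 8 ^ r * t m) 0 = m0 := rfl
  generalize seq m0 (fun m => 2 ^ 20 * 8 ^ r * t m) = m at hmono hg hstep hrat hzero
  choose Q q1 q2 q3 using fun k => level κ ζ κ1 hZ' (2 ^ m k) (one_le_pow₀ (by norm_num))
  obtain ⟨G', hG', hξ⟩ := core_tree r hr κ ζ κ1 hZ' m (fun k => t (m k)) Q hmono (hzero ▸ hD) q1 q2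
    q3 (fun _ => t0 _) (fun k => (hm0 _ (hg k)).1)
    (fun k => hκ ▸ mains_eps r _ (t0 _) (hm0 _ (hg k)).1) (fun k => (hm0 _ (hg k)).2.1) hstep
  obtain ⟨a, b⟩ := log_ratio2 hmono.tendsto_atTop hrat q1 q2
  refine ⟨G', hG', fun ξ hx => ⟨Q, fun k => (one_le_pow₀ (by norm_num)).trans (q1 k), a,
    by simpa using b, fun k => ?_⟩⟩
  have h2 := (hm0 _ (hg k)).2.2 (Q k) (q1 k)
  have h3 : 0 < t (m k) ^ 12 := pow_pos (t0 _) _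
  have hw : 0 ≤ ω (Q k) := by
    by_contra h
    have := mul_neg_of_neg_of_pos (not_le.1 h) h3
    linarith
  exact h2.trans (mul_le_mul_of_nonneg_left (hξ ξ hx k) hw)

end Pool.Agent.Lib.MP_e56372_nt.Fd
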