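import Mathlib

set_option autoImplicit false

namespace Pool.Agent.Lib.MP_e56372_nt.Fd

open Set MeasureTheory Metric
open scoped NNReal ENNReal

namespace Slicex

theorem cover_bound (E : Set (ℝ × ℝ)) (C r : ℝ≥0) (Z : Set ℝ) (h : ℝ → ℝ)
    (hh : HolderOnWith C r h Z) (hs : Icc (0 : ℝ) 1 ⊆ h '' Z)
    (hf : ∀ z ∈ Z, ∃ (F : Set ℝ) (g : ℝ → ℝ), (∀ x ∈ F, (x, z) ∈ E) ∧ HolderOnWith C r g F ∧
      Icc (0 : ℝ) 1 ⊆ g '' F)
    (t : ℕ → Set (ℝ × ℝ)) (ht : E ⊆ ⋃ n, t n) :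
    1 ≤ ∑' n, ((C : ℝ≥0∞) * ediam (t n) ^ (r : ℝ)) * ((C : ℝ≥0∞) * ediam (t n) ^ (r : ℝ)) := by
  set I : ℕ → Set ℝ := fun n => closure (h '' (Z ∩ Prod.snd '' t n)) with hI
  set a : ℕ → ℝ≥0∞ := fun n => (C : ℝ≥0∞) * ediam (t n) ^ (r : ℝ) with ha
  have hIm : ∀ n, MeasurableSet (I n) := fun n => isClosed_closure.measurableSet
  have hvol : ∀ n, volume (I n) ≤ a n := by
    intro n
    refine (Real.volume_le_diam _).trans ?_
    rw [hI, ediam_closure]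
    refine hh.ediam_image_le_of_subset_of_le inter_subset_left ?_
    refine (ediam_mono inter_subset_right).trans ?_
    simpa using LipschitzWith.prod_snd.ediam_image_le (t n)
  have hpt : ∀ y ∈ Icc (0 : ℝ) 1, (1 : ℝ≥0∞) ≤ ∑' n, (I n).indicator (fun _ => a n) y := by
    intro y hy
    obtain ⟨z, hz, rfl⟩ := hs hy
    obtain ⟨F, g, hE, hg, hon⟩ := hf z hz
    have hsub : Icc (0 : ℝ) 1 ⊆ ⋃ n, g '' (F ∩ {x | (x, z) ∈ t n}) := by
      intro v hv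
      obtain ⟨x, hx, rfl⟩ := hon hv
      obtain ⟨n, hn⟩ := mem_iUnion.1 (ht (hE x hx))
      exact mem_iUnion.2 ⟨n, x, ⟨hx, hn⟩, rfl⟩
    have h1 : (1 : ℝ≥0∞) = volume (Icc (0 : ℝ) 1) := by simp
    rw [h1]
    refine (measure_mono hsub).trans ((measure_iUnion_le _).trans (ENNReal.tsum_le_tsum fun n => ?_))
    rcases (F ∩ {x | (x, z) ∈ t n}).eq_empty_or_nonempty with he | ⟨x, hx⟩
    · rw [he]; simp
    · have hy : h z ∈ I n := subset_closure ⟨z, ⟨hz, (x, z), hx.2, rfl⟩, rfl⟩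
      rw [indicator_of_mem hy]
      refine (Real.volume_le_diam _).trans ?_
      refine hg.ediam_image_le_of_subset_of_le inter_subset_left ?_
      refine ediam_le fun u hu v hv => ?_
      refine le_trans ?_ (edist_le_ediam_of_mem hu.2 hv.2)
      rw [Prod.edist_eq]
      exact le_max_left _ _
  calc (1 : ℝ≥0∞) = ∫⁻ _y in Icc (0 : ℝ) 1, 1 := by simp
    _ ≤ ∫⁻ y in Icc (0 : ℝ) 1, ∑' n, (I n).indicator (fun _ => a n) y :=
        setLIntegral_mono' measurableSet_Icc hpt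
    _ ≤ ∫⁻ y, ∑' n, (I n).indicator (fun _ => a n) y := setLIntegral_le_lintegral _ _
    _ = ∑' n, ∫⁻ y, (I n).indicator (fun _ => a n) y :=
        lintegral_tsum fun n => (measurable_const.indicator (hIm n)).aemeasurable
    _ ≤ ∑' n, a n * a n := ENNReal.tsum_le_tsum fun n => by
        rw [lintegral_indicator_const (hIm n)]
        exact mul_le_mul_right (hvol n) _

end Slicex

/-- Slicing: Hoelder maps onto the unit interval on the base and on every fibre. -/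
theorem slice (E : Set (ℝ × ℝ)) (C r : ℝ≥0) (hr : 0 < r) (Z : Set ℝ) (h : ℝ → ℝ)
    (hh : HolderOnWith C r h Z) (hs : Icc (0 : ℝ) 1 ⊆ h '' Z)
    (hf : ∀ z ∈ Z, ∃ (F : Set ℝ) (g : ℝ → ℝ), (∀ x ∈ F, (x, z) ∈ E) ∧ HolderOnWith C r g F ∧
      Icc (0 : ℝ) 1 ⊆ g '' F) : ((2 * r : ℝ≥0) : ℝ≥0∞) ≤ dimH E := by
  refine le_dimH_of_hausdorffMeasure_ne_zero (fun h0 => ?_)
  have hr' : (0 : ℝ) < ((2 * r : ℝ≥0) : ℝ) := by positivity
  have key : ((C : ℝ≥0∞) * C)⁻¹ ≤ μH[((2 * r : ℝ≥0) : ℝ)] E := by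
    rw [Measure.hausdorffMeasure_apply]
    refine le_iSup₂_of_le 1 one_pos (le_iInf fun t => le_iInf fun ht => le_iInf fun _ => ?_)
    have h1 := Slicex.cover_bound E C r Z h hh hs hf t ht
    have h2 : ∀ n, ((C : ℝ≥0∞) * ediam (t n) ^ (r : ℝ)) * ((C : ℝ≥0∞) * ediam (t n) ^ (r : ℝ)) ≤
        ((C : ℝ≥0∞) * C) * ⨆ _ : (t n).Nonempty, ediam (t n) ^ ((2 * r : ℝ≥0) : ℝ) := by
      intro n
      have e : ediam (t n) ^ ((2 * r : ℝ≥0) : ℝ) = ediam (t n) ^ (r : ℝ) * ediam (t n) ^ (r : ℝ) := by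
        rw [← ENNReal.rpow_add_of_nonneg (r : ℝ) (r : ℝ) r.coe_nonneg r.coe_nonneg]
        congr 1
        push_cast
        ring
      rw [mul_mul_mul_comm, ← e]
      refine mul_le_mul_right ?_ _
      rcases (t n).eq_empty_or_nonempty with he | hne
      · rw [he, ediam_empty, ENNReal.zero_rpow_of_pos hr']
        exact zero_le
      · exact le_iSup (fun _ : (t n).Nonempty => ediam (t n) ^ ((2 * r : ℝ≥0) : ℝ)) hne
    have h3 := h1.trans (ENNReal.tsum_le_tsum h2)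
    rw [ENNReal.tsum_mul_left] at h3
    have hC : (C : ℝ≥0∞) * C ≠ ∞ := ENNReal.mul_ne_top ENNReal.coe_ne_top ENNReal.coe_ne_top
    have hC0 : (C : ℝ≥0∞) * C ≠ 0 := fun e => by
      rw [e, zero_mul] at h3
      exact absurd h3 (by simp)
    calc ((C : ℝ≥0∞) * C)⁻¹ = ((C : ℝ≥0∞) * C)⁻¹ * 1 := (mul_one _).symm
      _ ≤ ((C : ℝ≥0∞) * C)⁻¹ * (((C : ℝ≥0∞) * C) * _) := mul_le_mul_right h3 _
      _ = _ := by rw [← mul_assoc, ENNReal.inv_mul_cancel hC0 hC, one_mul]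
  rw [h0, nonpos_iff_eq_zero, ENNReal.inv_eq_zero] at key
  exact ENNReal.mul_ne_top ENNReal.coe_ne_top ENNReal.coe_ne_top key

end Pool.Agent.Lib.MP_e56372_nt.Fd
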