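import Pool.Agent.Lib.MP_e56372_nt.Fd.Fibre

set_option autoImplicit false
open Finset Filter Topology
open scoped NNReal ENNReal

namespace Pool.Agent.Lib.MP_e56372_nt.Fd
open Pool.Agent.Lib.MP_e56372_nt

theorem trade_start (δ κ : ℝ) (δ0 : 0 < δ) :
    ∀ᶠ m : ℕ in atTop, 3 * κ ≤ 2 ^ m ∧ (2 * (m : ℝ)) ^ 20 ≤ δ ^ 20 * 2 ^ m := by
  have h1 := (tendsto_pow_atTop_atTop_of_one_lt (show (1 : ℝ) < 2 by norm_num)).eventually_ge_atTop
    (3 * κ)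
  have h2 := (tendsto_pow_const_div_const_pow_of_one_lt 20 (show (1 : ℝ) < 2 by norm_num)).eventually
    (ge_mem_nhds (show (0 : ℝ) < δ ^ 20 / 2 ^ 20 by positivity))
  filter_upwards [h1, h2] with m a b
  refine ⟨a, ?_⟩
  rw [div_le_div_iff₀ (by positivity) (by positivity)] at b
  rw [mul_pow]
  linarith

theorem fibre_trade (ζ : ℝ) (hζ : Bad ζ) (τ : ℝ → ℝ) (h0 : ∀ Q, 0 < τ Q) (h1 : ∀ Q, τ Q ≤ 1)
    (h2 : Tendsto (fun Q => τ Q * Real.log Q) atTop atTop) :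
    dimH {ξ : ℝ | Bad ξ ∧ ∃ c : ℝ, 0 < c ∧ ∃ Q : ℕ → ℝ, (∀ k, 1 ≤ Q k) ∧ Tendsto Q atTop atTop ∧
      ∀ k, Q (k + 1) ≤ Q k ^ (1 + τ (Q k)) ∧ c * τ (Q k) ^ 12 ≤ Q k * mmin ξ ζ (Q k)} = 1 := by
  obtain ⟨κ, κ1, hZ⟩ := fibre_badK hζ
  refine fibre_one _ fun r hr => ?_
  obtain ⟨y, hy⟩ : ∃ y : ℝ, y = 8 ^ r := ⟨_, rfl⟩
  have y1 : 1 ≤ y := hy ▸ one_le_pow₀ (by norm_num)
  obtain ⟨δ, hδ⟩ : ∃ δ : ℝ, δ = min (1 / (2 ^ 24 * y)) (1 / κ) := ⟨_, rfl⟩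
  have δ0 : 0 < δ := hδ ▸ lt_min (by positivity) (by positivity)
  have δ1 : δ ≤ 1 / (2 ^ 24 * y) := hδ ▸ min_le_left _ _
  have δ3 : δ * κ ≤ 1 := by
    have : δ ≤ 1 / κ := hδ ▸ min_le_right _ _
    rwa [le_div_iff₀ (by linarith)] at this
  have δ4 : δ * y ≤ 1 / 2 ^ 24 := by
    rw [le_div_iff₀ (by positivity)] at δ1 ⊢; linarith
  have δ5 : δ ≤ 1 / 2 ^ 24 := le_trans (le_mul_of_one_le_right δ0.le y1) δ4
  choose Qf q1 q2 q3 using fun m : ℕ => level κ ζ κ1 hZ (2 ^ m) (one_le_pow₀ (by norm_num))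
  have hQf : Tendsto Qf atTop atTop :=
    tendsto_atTop_mono q1 (tendsto_pow_atTop_atTop_of_one_lt (by norm_num))
  obtain ⟨m0, hm0⟩ := eventually_atTop.1 ((trade_start δ κ δ0).and
    (((h2.comp hQf).eventually_ge_atTop (2 * (6 * κ))).and (eventually_ge_atTop 1)))
  have h10 : 1 ≤ m0 := (hm0 m0 le_rfl).2.2
  have td : ∀ m, δ * τ (Qf m) ≤ δ := fun m => mul_le_of_le_one_right δ0.le (h1 _)
  have t0 : ∀ m, 0 < δ * τ (Qf m) := fun m => mul_pos δ0 (h0 _)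
  have hs : ∀ m, m0 ≤ m → 0 < 2 ^ 20 * 8 ^ r * (δ * τ (Qf m)) := fun m _ => by
    have := t0 m; positivity
  have hmono := seq_mono h10 hs
  have hg := seq_ge m0 (fun m => 2 ^ 20 * 8 ^ r * (δ * τ (Qf m)))
  have hstep := seq_step m0 (fun m => 2 ^ 20 * 8 ^ r * (δ * τ (Qf m)))
  have hup : ∀ k, ((seq m0 (fun m => 2 ^ 20 * 8 ^ r * (δ * τ (Qf m))) (k + 1) : ℕ) : ℝ) ≤
      seq m0 (fun m => 2 ^ 20 * 8 ^ r * (δ * τ (Qf m))) k +
        (2 ^ 20 * 8 ^ r * (δ * τ (Qf (seq m0 (fun m => 2 ^ 20 * 8 ^ r * (δ * τ (Qf m))) k))) *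
          seq m0 (fun m => 2 ^ 20 * 8 ^ r * (δ * τ (Qf m))) k + 1) := fun k => by
    rw [seq, Nat.cast_add]
    exact add_le_add le_rfl (Nat.ceil_lt_add_one
      (mul_nonneg (hs _ (hg k)).le (Nat.cast_nonneg _))).le
  generalize seq m0 (fun m => 2 ^ 20 * 8 ^ r * (δ * τ (Qf m))) = m at hmono hg hstep hup
  have l2 : Real.log 2 ≤ 1 := by have := Real.log_two_lt_d9; linarith
  have l0 : 0 < Real.log 2 := Real.log_pos (by norm_num)
  have Q0 : ∀ j, 0 < Qf j := fun j => lt_of_lt_of_le (by positivity) (q1 j)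
  have lo : ∀ j : ℕ, j * Real.log 2 ≤ Real.log (Qf j) := fun j => by
    rw [← Real.log_pow]; exact Real.log_le_log (by positivity) (q1 j)
  have hi : ∀ j : ℕ, Real.log (Qf j) ≤ 3 * κ + j * Real.log 2 := fun j => by
    have a1 := Real.log_le_log (Q0 j) (q2 j)
    rw [Real.log_mul (by linarith) (by positivity), Real.log_pow] at a1
    have a2 := Real.log_le_sub_one_of_pos (show 0 < 3 * κ by linarith)
    linarith
  obtain ⟨G', hG', hξ⟩ := core_tree2 r hr κ ζ κ1 hZ m (fun k => δ * τ (Qf (m k))) (fun k => Qf (m k))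
    hmono (hm0 _ (hg 0)).1.1 (fun k => q1 _) (fun k => q2 _) (fun k => q3 _) (fun _ => t0 _)
    (fun _ => (td _).trans (hy ▸ δ1)) (fun k => by
      have h3 : (δ * τ (Qf (m k))) ^ 20 ≤ δ ^ 20 := pow_le_pow_left₀ (t0 _).le (td _) 20
      have h4 : δ ^ 19 ≤ (1 / 2 ^ 24) ^ 19 := pow_le_pow_left₀ δ0.le δ5 19
      calc 2 ^ 33 * (δ * τ (Qf (m k))) ^ 20 * κ ≤ 2 ^ 33 * δ ^ 20 * κ := by gcongr
        _ = 2 ^ 33 * δ ^ 19 * (δ * κ) := by ring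
        _ ≤ 2 ^ 33 * (1 / 2 ^ 24) ^ 19 * 1 := by gcongr
        _ < 1 := by norm_num) (fun k => by
      obtain ⟨⟨a1, a2⟩, a3, -⟩ := hm0 _ (hg k)
      simp only [Function.comp] at a3
      have a4 : Real.log (Qf (m k)) ≤ 2 * (m k : ℝ) := by
        have b1 := Real.log_le_log (Q0 _) ((q2 (m k)).trans
          (mul_le_mul_of_nonneg_right a1 (by positivity)))
        rw [← pow_add, Real.log_pow] at b1
        push_cast at b1
        have b2 := mul_le_mul_of_nonneg_left l2 (show (0 : ℝ) ≤ m k + m k by positivity)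
        linarith
      have a5 : 1 ≤ τ (Qf (m k)) * (2 * (m k : ℝ)) := by
        have := mul_le_mul_of_nonneg_left a4 (h0 (Qf (m k))).le
        linarith
      have a6 := h0 (Qf (m k))
      calc (1 : ℝ) ≤ (τ (Qf (m k)) * (2 * (m k : ℝ))) ^ 20 := one_le_pow₀ a5
        _ = τ (Qf (m k)) ^ 20 * (2 * (m k : ℝ)) ^ 20 := mul_pow _ _ _
        _ ≤ τ (Qf (m k)) ^ 20 * (δ ^ 20 * 2 ^ m k) := by gcongr
        _ = _ := by ring) hstep
  refine ⟨G', hG', fun ξ hx => ⟨bad_of (hξ ξ hx).1, δ ^ 12, pow_pos δ0 _, fun k => Qf (m k),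
    fun k => (one_le_pow₀ (by norm_num)).trans (q1 _), hQf.comp hmono.tendsto_atTop, fun k => ⟨?_, ?_⟩⟩⟩
  · obtain ⟨-, a3, -⟩ := hm0 _ (hg k)
    simp only [Function.comp] at a3
    rw [Real.le_rpow_iff_log_le (Q0 _) (Q0 _)]
    have a6 := h0 (Qf (m k))
    have b1 := mul_le_mul_of_nonneg_right (hup k) l0.le
    have b2 : 2 ^ 20 * 8 ^ r * (δ * τ (Qf (m k))) ≤ τ (Qf (m k)) / 2 := by
      have := mul_le_mul_of_nonneg_right δ4 a6.le
      rw [← hy]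
      linarith
    have b3 := mul_le_mul b2 (lo (m k)) (by positivity) (by positivity)
    have b4 := hi (m (k + 1))
    have b5 := lo (m k)
    linarith
  · have := (hξ ξ hx).2 k
    rwa [mul_pow] at this

end Pool.Agent.Lib.MP_e56372_nt.Fd
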