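import Mathlib

set_option autoImplicit false

namespace Pool.Agent.Lib.MP_e56372_nt.Fd

open Set
open scoped NNReal ENNReal

namespace Treex

theorem digit {M : ℕ} (hM : 2 ≤ M) (n : ℕ) (Y y : ℝ) (h : Y ≤ y ∧ y ≤ Y + 1 / (M : ℝ) ^ n) :
    ∃ d : ℕ, d < M ∧ Y + d / (M : ℝ) ^ (n + 1) ≤ y ∧
      y ≤ Y + d / (M : ℝ) ^ (n + 1) + 1 / (M : ℝ) ^ (n + 1) := by
  have hM0 : (0 : ℝ) < M := by exact_mod_cast (by omega : 0 < M)
  have hp : (0 : ℝ) < (M : ℝ) ^ (n + 1) := by positivity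
  have h0 : 0 ≤ (y - Y) * (M : ℝ) ^ (n + 1) := mul_nonneg (by linarith [h.1]) hp.le
  have f1 := Nat.floor_le h0
  have f2 := Nat.lt_floor_add_one ((y - Y) * (M : ℝ) ^ (n + 1))
  by_cases hd : ⌊(y - Y) * (M : ℝ) ^ (n + 1)⌋₊ < M
  · refine ⟨_, hd, ?_, ?_⟩
    · have := (div_le_iff₀ hp).2 f1
      linarith
    · have := (le_div_iff₀ hp).2 f2.le
      rw [add_div] at this
      linarith
  · obtain ⟨k, rfl⟩ : ∃ k, M = k + 1 := ⟨M - 1, by omega⟩
    refine ⟨k, Nat.lt_succ_self k, ?_, ?_⟩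
    · have h1 : (k : ℝ) ≤ ⌊(y - Y) * ((k + 1 : ℕ) : ℝ) ^ (n + 1)⌋₊ := by
        exact_mod_cast (by omega : k ≤ ⌊(y - Y) * ((k + 1 : ℕ) : ℝ) ^ (n + 1)⌋₊)
      have := (div_le_iff₀ hp).2 (h1.trans f1)
      linarith
    · have e : (k : ℝ) / ((k + 1 : ℕ) : ℝ) ^ (n + 1) + 1 / ((k + 1 : ℕ) : ℝ) ^ (n + 1) =
          1 / ((k + 1 : ℕ) : ℝ) ^ n := by
        rw [← add_div, pow_succ]
        push_cast
        field_simp
      linarith [h.2]

/-- The pair of left ends at level `n`. -/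
noncomputable def st (B M : ℕ) (x0 : ℝ) (c : ℕ → ℝ → ℕ → ℕ) (D : ℕ → ℝ → ℝ → ℕ) (y : ℝ) :
    ℕ → ℝ × ℝ
  | 0 => (x0, 0)
  | n + 1 => ((st B M x0 c D y n).1 +
      c n (st B M x0 c D y n).1 (D n (st B M x0 c D y n).2 y) / (B : ℝ) ^ (n + 1),
      (st B M x0 c D y n).2 + D n (st B M x0 c D y n).2 y / (M : ℝ) ^ (n + 1))

end Treex

open Treex in
/-- A tree of intervals with `M` separated good children in base `B` carries a Hoelder map onto
the unit interval. -/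
theorem tree (B M : ℕ) (hM : 2 ≤ M) (hB : 1 ≤ B) (r : ℝ≥0) (hr0 : 0 < r)
    (hr : (B : ℝ) ^ (r : ℝ) ≤ M)
    (Good : ℕ → ℝ → Prop) (x0 : ℝ) (h0 : Good 0 x0)
    (hs : ∀ n x, Good n x → ∃ c : ℕ → ℕ,
      (∀ a, a < M → c a < B ∧ Good (n + 1) (x + c a / (B : ℝ) ^ (n + 1))) ∧
        ∀ a b, a < b → b < M → c a + 2 ≤ c b) :
    ∃ (F : Set ℝ) (g : ℝ → ℝ),
      (∀ ξ ∈ F, ∀ n, ∃ x, Good n x ∧ ξ ∈ Icc x (x + 1 / (B : ℝ) ^ n)) ∧
        HolderOnWith (M : ℝ≥0) r g F ∧ Icc (0 : ℝ) 1 ⊆ g '' F := by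
  choose! c hc1 hc2 using hs
  choose! D hD using digit hM
  have hM0 : (0 : ℝ) < M := by exact_mod_cast (by omega : 0 < M)
  have hB0 : (0 : ℝ) < B := by exact_mod_cast (by omega : 0 < B)
  set S := st B M x0 c D with hS
  have s1 : ∀ y n, (S y (n + 1)).1 =
      (S y n).1 + c n (S y n).1 (D n (S y n).2 y) / (B : ℝ) ^ (n + 1) := fun _ _ => rfl
  have s2 : ∀ y n, (S y (n + 1)).2 = (S y n).2 + D n (S y n).2 y / (M : ℝ) ^ (n + 1) :=
    fun _ _ => rfl
  have inv : ∀ y ∈ Icc (0 : ℝ) 1, ∀ n, Good n (S y n).1 ∧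
      ((S y n).2 ≤ y ∧ y ≤ (S y n).2 + 1 / (M : ℝ) ^ n) := by
    intro y hy n
    induction n with
    | zero => exact ⟨h0, hy.1, by simpa [hS, st] using hy.2⟩
    | succ n ih =>
      have h1 := hD n _ y ih.2
      rw [s1, s2]
      exact ⟨(hc1 n _ ih.1 _ h1.1).2, h1.2⟩
  have pt : ∀ y ∈ Icc (0 : ℝ) 1, ∃ ξ, ∀ n, ξ ∈ Icc (S y n).1 ((S y n).1 + 1 / (B : ℝ) ^ n) := by
    intro y hy
    have hX : ∀ n, Icc (S y (n + 1)).1 ((S y (n + 1)).1 + 1 / (B : ℝ) ^ (n + 1)) ⊆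
        Icc (S y n).1 ((S y n).1 + 1 / (B : ℝ) ^ n) := by
      intro n
      have h1 := (hc1 n _ (inv y hy n).1 _ (hD n _ y (inv y hy n).2).1).1
      have h2 : ((c n (S y n).1 (D n (S y n).2 y) : ℕ) : ℝ) + 1 ≤ B := by exact_mod_cast h1
      have hp : (0 : ℝ) < (B : ℝ) ^ (n + 1) := by positivity
      rw [s1]
      refine Icc_subset_Icc (le_add_of_nonneg_right (by positivity)) ?_
      have e : (1 : ℝ) / (B : ℝ) ^ n = B / (B : ℝ) ^ (n + 1) := by rw [pow_succ]; field_simp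
      rw [add_assoc, ← add_div, e]
      exact add_le_add le_rfl (div_le_div_of_nonneg_right h2 hp.le)
    obtain ⟨ξ, hξ⟩ := IsCompact.nonempty_iInter_of_sequence_nonempty_isCompact_isClosed
      (fun n => Icc (S y n).1 ((S y n).1 + 1 / (B : ℝ) ^ n)) hX
      (fun n => nonempty_Icc.2 (le_add_of_nonneg_right (by positivity)))
      isCompact_Icc (fun n => isClosed_Icc)
    exact ⟨ξ, mem_iInter.1 hξ⟩
  choose! P hP using pt
  have sep : ∀ y ∈ Icc (0 : ℝ) 1, ∀ y' ∈ Icc (0 : ℝ) 1, ∀ n, S y n = S y' n →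
      D n (S y n).2 y < D n (S y' n).2 y' → 1 / (B : ℝ) ^ (n + 1) ≤ P y' - P y := by
    intro y hy y' hy' n he hlt
    have a1 := (hP y hy (n + 1)).2
    have a2 := (hP y' hy' (n + 1)).1
    rw [s1] at a1 a2
    have a3 := hc2 n _ (inv y' hy' n).1 _ _ hlt (hD n _ y' (inv y' hy' n).2).1
    rw [he] at a1 a3
    have a4 : ((c n (S y' n).1 (D n (S y' n).2 y) : ℕ) : ℝ) + 2 ≤
        c n (S y' n).1 (D n (S y' n).2 y') := by exact_mod_cast a3
    have hp : (0 : ℝ) < (B : ℝ) ^ (n + 1) := by positivity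
    have a5 := div_le_div_of_nonneg_right a4 hp.le
    rw [add_div] at a5
    have e : (2 : ℝ) / (B : ℝ) ^ (n + 1) = 1 / (B : ℝ) ^ (n + 1) + 1 / (B : ℝ) ^ (n + 1) := by ring
    linarith
  have hol : ∀ y ∈ Icc (0 : ℝ) 1, ∀ y' ∈ Icc (0 : ℝ) 1,
      |y - y'| ≤ M * |P y - P y'| ^ (r : ℝ) := by
    intro y hy y' hy'
    have near : ∀ n, S y n = S y' n → |y - y'| ≤ 1 / (M : ℝ) ^ n := by
      intro n he
      have a1 := (inv y hy n).2
      have a2 := (inv y' hy' n).2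
      rw [he] at a1
      rw [abs_le]
      constructor <;> linarith [a1.1, a1.2, a2.1, a2.2]
    by_contra hcon
    have all : ∀ n, S y n = S y' n := by
      intro n
      induction n with
      | zero => rfl
      | succ n ih =>
        by_cases hd : D n (S y n).2 y = D n (S y' n).2 y'
        · refine Prod.ext ?_ ?_
          · rw [s1, s1, hd, ih]
          · rw [s2, s2, hd, ih]
        · exfalso
          apply hcon
          have b1 : 1 / (B : ℝ) ^ (n + 1) ≤ |P y - P y'| := by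
            rcases lt_or_gt_of_ne hd with h | h
            · rw [abs_sub_comm]
              exact (sep y hy y' hy' n ih h).trans (le_abs_self _)
            · exact (sep y' hy' y hy n ih.symm h).trans (le_abs_self _)
          have b2 : (1 / (B : ℝ) ^ (n + 1)) ^ (r : ℝ) ≤ |P y - P y'| ^ (r : ℝ) :=
            Real.rpow_le_rpow (by positivity) b1 r.coe_nonneg
          have b3 : 1 / (M : ℝ) ^ (n + 1) ≤ (1 / (B : ℝ) ^ (n + 1)) ^ (r : ℝ) := by
            rw [Real.div_rpow zero_le_one (by positivity), Real.one_rpow,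
              ← Real.rpow_pow_comm hB0.le]
            exact one_div_le_one_div_of_le (by positivity)
              (pow_le_pow_left₀ (by positivity) hr _)
          have e : (1 : ℝ) / (M : ℝ) ^ n = M * (1 / (M : ℝ) ^ (n + 1)) := by
            rw [pow_succ]; field_simp
          exact (near n ih).trans (e ▸ mul_le_mul_of_nonneg_left (b3.trans b2) hM0.le)
    apply hcon
    have z : |y - y'| ≤ 0 := by
      by_contra hz
      have hz' : 0 < |y - y'| := not_le.1 hz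
      have h1 : (1 : ℝ) < M := by exact_mod_cast (by omega : 1 < M)
      obtain ⟨n, hn⟩ := pow_unbounded_of_one_lt (1 / |y - y'|) h1
      have h2 := near n (all n)
      rw [div_lt_iff₀ hz'] at hn
      rw [le_div_iff₀ (by positivity)] at h2
      linarith
    exact z.trans (by positivity)
  refine ⟨P '' Icc (0 : ℝ) 1, Function.invFunOn P (Icc (0 : ℝ) 1), ?_, ?_, ?_⟩
  · rintro _ ⟨y, hy, rfl⟩ n
    exact ⟨_, (inv y hy n).1, hP y hy n⟩
  · intro u hu v hv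
    have h1 := hol _ (Function.invFunOn_mem hu) _ (Function.invFunOn_mem hv)
    rw [Function.invFunOn_eq hu, Function.invFunOn_eq hv] at h1
    rw [edist_dist, edist_dist, Real.dist_eq, Real.dist_eq,
      ENNReal.ofReal_rpow_of_nonneg (abs_nonneg _) r.coe_nonneg, ← ENNReal.ofReal_coe_nnreal,
      ← ENNReal.ofReal_mul (NNReal.coe_nonneg _)]
    exact ENNReal.ofReal_le_ofReal (by simpa using h1)
  · intro y hy
    refine ⟨P y, mem_image_of_mem _ hy, ?_⟩
    have hu : P y ∈ P '' Icc (0 : ℝ) 1 := mem_image_of_mem _ hy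
    have h1 := hol _ (Function.invFunOn_mem hu) _ hy
    rw [Function.invFunOn_eq hu, sub_self, abs_zero] at h1
    rw [Real.zero_rpow (NNReal.coe_pos.2 hr0).ne', mul_zero] at h1
    exact sub_eq_zero.1 (abs_nonpos_iff.1 h1)

end Pool.Agent.Lib.MP_e56372_nt.Fd
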