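import Pool.Agent.Lib.MP_e56372_nt.Fd.Defs
import Pool.Agent.Lib.MP_e56372_nt.Fd.Tree

set_option autoImplicit false
open Finset Filter Topology
open scoped NNReal ENNReal

namespace Pool.Agent.Lib.MP_e56372_nt.Fd
open Pool.Agent.Lib.MP_e56372_nt

theorem tree_holder (B b : ℕ) (hB : 2 ≤ B) (hb : 2 ≤ b) (s : ℝ≥0) (hs : (B : ℝ) ^ (s : ℝ) = b) :
    ∃ C : ℝ≥0, ∀ G : ℕ → ℝ → Prop, Branch B b G → ∃ (F : Set ℝ) (g : ℝ → ℝ), F ⊆ Lim B G ∧
      HolderOnWith C s g F ∧ Set.Icc (0 : ℝ) 1 ⊆ g '' F := by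
  have hs0 : 0 < s := by
    refine pos_iff_ne_zero.2 fun h => ?_
    rw [h, NNReal.coe_zero, Real.rpow_zero] at hs
    have : 1 = b := by exact_mod_cast hs
    omega
  refine ⟨b, fun G hG => ?_⟩
  obtain ⟨F, g, h1, h2, h3⟩ := tree B b hb (by omega) s hs0 hs.le G 0 hG.1 (fun n x hx => by
    obtain ⟨S, hS, hc⟩ := hG.2 n x hx
    refine ⟨fun a => if h : a < b then 2 * S.orderEmbOfCardLe hS ⟨a, h⟩ else 0, fun a ha => ?_,
      fun a a' haa ha' => ?_⟩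
    · have := hc _ (S.orderEmbOfCardLe_mem hS ⟨a, ha⟩)
      simp only [dif_pos ha]
      push_cast
      exact this
    · have ha : a < b := haa.trans ha'
      have : S.orderEmbOfCardLe hS ⟨a, ha⟩ < S.orderEmbOfCardLe hS ⟨a', ha'⟩ :=
        (S.orderEmbOfCardLe hS).strictMono haa
      simp only [dif_pos ha, dif_pos ha']
      omega)
  refine ⟨F, g, fun ξ hξ n => ?_, h2, h3⟩
  obtain ⟨x, hx, hm⟩ := h1 ξ hξ n
  exact ⟨x, hx, hm.1, hm.2⟩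

end Pool.Agent.Lib.MP_e56372_nt.Fd
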