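import Pool.Agent.Lib.MP_e56372_nt.Fd.TreeH
import Pool.Agent.Lib.MP_e56372_nt.Fd.Slice

set_option autoImplicit false
open Finset Filter Topology
open scoped NNReal ENNReal

namespace Pool.Agent.Lib.MP_e56372_nt.Fd
open Pool.Agent.Lib.MP_e56372_nt

theorem two_pow (r : ℕ) (hr : 3 ≤ r) :
    (((64 ^ r : ℕ) : ℝ)) ^ (1 - 1 / (3 * (r : ℝ))) = ((64 ^ r / 4 : ℕ) : ℝ) := by
  have r0 : (0 : ℝ) < r := by exact_mod_cast (by omega : 0 < r)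
  have h4 : 4 ∣ 64 ^ r := (by norm_num : 4 ∣ 64).trans (dvd_pow_self 64 (by omega))
  rw [Nat.cast_div h4 (by norm_num), Real.rpow_sub (by positivity), Real.rpow_one]
  congr 1
  have e : ((64 ^ r : ℕ) : ℝ) = (4 : ℝ) ^ (3 * r) := by
    push_cast; rw [pow_mul]; norm_num
  rw [e, one_div, show 3 * (r : ℝ) = ((3 * r : ℕ) : ℝ) by push_cast; rfl,
    Real.pow_rpow_inv_natCast (by norm_num) (by omega)]
  norm_num

theorem two_low (E : Set (ℝ × ℝ)) (r : ℕ) (hr : 3 ≤ r)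
    (h : ∃ G, Branch (64 ^ r) (64 ^ r / 4) G ∧
    ∀ ζ ∈ Lim (64 ^ r) G, ∃ G', Branch (64 ^ r) (64 ^ r / 4) G' ∧
      ∀ ξ ∈ Lim (64 ^ r) G', (ξ, ζ) ∈ E) :
    ENNReal.ofReal (2 * (1 - 1 / (3 * (r : ℝ)))) ≤ dimH E := by
  have r3 : (3 : ℝ) ≤ r := by exact_mod_cast hr
  have s0 : 0 < 1 - 1 / (3 * (r : ℝ)) := by
    rw [sub_pos, div_lt_one (by positivity)]; linarith
  have b1 : 64 ≤ 64 ^ r := Nat.le_self_pow (by omega) 64
  obtain ⟨C, hC⟩ := tree_holder (64 ^ r) (64 ^ r / 4) (by omega) (by omega) ⟨_, s0.le⟩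
    (two_pow r hr)
  obtain ⟨G, hG, hG'⟩ := h
  obtain ⟨Z, f, hZ, hf, hs⟩ := hC G hG
  have := slice E C ⟨_, s0.le⟩ s0 Z f hf hs fun z hz => by
    obtain ⟨G', h1, h2⟩ := hG' z (hZ hz)
    obtain ⟨F, g, hF, hg, ht⟩ := hC G' h1
    exact ⟨F, g, fun x hx => h2 x (hF hx), hg, ht⟩
  refine le_trans (le_of_eq ?_) this
  rw [← ENNReal.ofReal_coe_nnreal]
  rfl

theorem dim_two (E : Set (ℝ × ℝ)) (h : ∀ r : ℕ, 3 ≤ r → ∃ G, Branch (64 ^ r) (64 ^ r / 4) G ∧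
    ∀ ζ ∈ Lim (64 ^ r) G, ∃ G', Branch (64 ^ r) (64 ^ r / 4) G' ∧
      ∀ ξ ∈ Lim (64 ^ r) G', (ξ, ζ) ∈ E) : dimH E = 2 := by
  refine le_antisymm ((dimH_mono (Set.subset_univ E)).trans ?_) ?_
  · rw [Real.dimH_univ_eq_finrank]
    simp
  · have t1 : Tendsto (fun r : ℕ => 1 / (3 * (r : ℝ))) atTop (𝓝 0) :=
      tendsto_const_nhds.div_atTop
        (tendsto_natCast_atTop_atTop.const_mul_atTop (by norm_num : (0 : ℝ) < 3))
    have t2 := ENNReal.tendsto_ofReal ((t1.const_sub 1).const_mul 2)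
    have e : ENNReal.ofReal (2 * (1 - 0)) = 2 := by simp
    rw [e] at t2
    exact le_of_tendsto t2 ((eventually_ge_atTop 3).mono fun r hr => two_low E r hr (h r hr))

end Pool.Agent.Lib.MP_e56372_nt.Fd
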