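import Pool.Agent.Lib.MP_e56372_nt.Fd.Defs2
import Pool.Agent.Lib.MP_e56372_nt.Fd.Tree
import Pool.Agent.Lib.MP_e56372_nt.Fd.Slice

set_option autoImplicit false
open Finset Filter Topology
open scoped NNReal ENNReal

namespace Pool.Agent.Lib.MP_e56372_nt.Fd
open Pool.Agent.Lib.MP_e56372_nt

theorem twoG_tree (B b : ℕ) (hB : 1 ≤ B) (hb : 2 ≤ b) (s : ℝ≥0) (hs0 : 0 < s)
    (hs : (B : ℝ) ^ (s : ℝ) ≤ b) (C : ℕ) (hC : b ≤ C) (G : ℕ → ℝ → Prop) (hG : Branch B b G) :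
    ∃ (F : Set ℝ) (g : ℝ → ℝ), F ⊆ Lim B G ∧ HolderOnWith (C : ℝ≥0) s g F ∧
      Set.Icc (0 : ℝ) 1 ⊆ g '' F := by
  obtain ⟨F, g, h1, h2, h3⟩ := tree B b hb hB s hs0 hs G 0 hG.1 (fun n x hx => by
    obtain ⟨S, hS, hc⟩ := hG.2 n x hx
    refine ⟨fun a => if h : a < b then 2 * S.orderEmbOfCardLe hS ⟨a, h⟩ else 0, fun a ha => ?_,
      fun a a' haa ha' => ?_⟩
    · have := hc _ (S.orderEmbOfCardLe_mem hS ⟨a, ha⟩)
      simp only [dif_pos ha]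
      push_cast
      exact this
    · have ha : a < b := haa.trans ha'
      have : S.orderEmbOfCardLe hS ⟨a, ha⟩ < S.orderEmbOfCardLe hS ⟨a', ha'⟩ :=
        (S.orderEmbOfCardLe hS).strictMono haa
      simp only [dif_pos ha, dif_pos ha']
      omega)
  refine ⟨F, g, fun ξ hξ n => ?_, fun x hx y hy => (h2 x hx y hy).trans ?_, h3⟩
  · obtain ⟨x, hx, hm⟩ := h1 ξ hξ n
    exact ⟨x, hx, hm.1, hm.2⟩
  · exact mul_le_mul_left (ENNReal.coe_le_coe.2 (Nat.cast_le.2 hC)) _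

theorem dim_two_gen (E : Set (ℝ × ℝ)) (h : ∀ s : ℝ≥0, 0 < s → s < 1 → ∃ B b B' b' : ℕ,
    1 ≤ B ∧ 2 ≤ b ∧ 1 ≤ B' ∧ 2 ≤ b' ∧ (B : ℝ) ^ (s : ℝ) ≤ b ∧ (B' : ℝ) ^ (s : ℝ) ≤ b' ∧
    ∃ G, Branch B b G ∧ ∀ ζ ∈ Lim B G, ∃ G', Branch B' b' G' ∧ ∀ ξ ∈ Lim B' G', (ξ, ζ) ∈ E) :
    dimH E = 2 := by
  have low : ∀ s : ℝ≥0, 0 < s → s < 1 → ((2 * s : ℝ≥0) : ℝ≥0∞) ≤ dimH E := by
    intro s s0 s1
    obtain ⟨B, b, B', b', a1, a2, a3, a4, a5, a6, G, hG, hG'⟩ := h s s0 s1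
    obtain ⟨Z, f, hZ, hf, hs⟩ := twoG_tree B b a1 a2 s s0 a5 (max b b') (le_max_left _ _) G hG
    refine slice E _ s s0 Z f hf hs fun z hz => ?_
    obtain ⟨G', h1, h2⟩ := hG' z (hZ hz)
    obtain ⟨F, g, hF, hg, ht⟩ :=
      twoG_tree B' b' a3 a4 s s0 a6 (max b b') (le_max_right _ _) G' h1
    exact ⟨F, g, fun x hx => h2 x (hF hx), hg, ht⟩
  refine le_antisymm ((dimH_mono (Set.subset_univ E)).trans ?_) ?_
  · rw [Real.dimH_univ_eq_finrank]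
    simp
  · refine le_of_forall_lt fun c hc => ?_
    obtain ⟨t, h1, h2⟩ := ENNReal.lt_iff_exists_nnreal_btwn.1 hc
    have t0 : 0 < t := ENNReal.coe_pos.1 (lt_of_le_of_lt zero_le h1)
    have t2 : t < 2 := by exact_mod_cast h2
    have := low (t / 2) (by positivity) ((div_lt_one (by norm_num)).2 t2)
    rw [mul_div_cancel₀ _ (by norm_num : (2 : ℝ≥0) ≠ 0)] at this
    exact h1.trans_le this

end Pool.Agent.Lib.MP_e56372_nt.Fd
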